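import Pool.Agent.W683.BH.Quant

/-!
# MP_9e0ccb_an, MP_751bb7_an: final forms
-/

set_option autoImplicit false

namespace Pool.Agent.W683.BH

open Set Filter Topology Cardinal TopologicalSpace
open scoped Classical BoundedContinuousFunction

theorem succ_le_beth (m : ℕ) :
    (Order.succ^[m] 𝔠 : Cardinal.{0}) ≤ Cardinal.beth Ordinal.omega0 := by
  have h1 : (Order.succ^[m] 𝔠 : Cardinal.{0}) ≤ Order.succ^[m] (Order.succ 𝔠) := by
    rw [← Function.iterate_succ_apply, Function.iterate_succ_apply']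
    exact Order.le_succ _
  refine h1.trans ((succ_iter_le m).trans ?_)
  exact Cardinal.beth_le_beth.2 (Ordinal.natCast_lt_omega0 _).le

theorem frozen : ¬ (∀ (H : Type) [NormedAddCommGroup H] [InnerProductSpace ℝ H] [CompleteSpace H],
      ¬ TopologicalSpace.SeparableSpace H →
      ∃ (L : Type) (_ : TopologicalSpace L),
        CompactSpace L ∧ T2Space L ∧ TotallyDisconnectedSpace L ∧
        Nonempty ((↥(toWeakSpace ℝ H '' Metric.closedBall (0 : H) 1) →ᵇ ℝ) ≃L[ℝ]
          (L →ᵇ ℝ))) := by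
  intro hall
  let κ : Type := (Cardinal.beth Ordinal.omega0 : Cardinal.{0}).out
  have hκ : #κ = Cardinal.beth Ordinal.omega0 := Cardinal.mk_out _
  have hunc : Uncountable κ := by
    rw [← Cardinal.aleph0_lt_mk_iff, hκ]
    refine lt_of_lt_of_le Cardinal.aleph0_lt_continuum ?_
    exact succ_le_beth 0
  obtain ⟨L, _, hc, ht, htd, ⟨Φ⟩⟩ := hall (lp (fun _ : κ => ℝ) 2) (sep κ hunc)
  obtain ⟨h⟩ := hom κ
  haveI := cpt κ
  haveI hcW : CompactSpace ↥(toWeakSpace ℝ (lp (fun _ : κ => ℝ) 2) ''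
    Metric.closedBall (0 : lp (fun _ : κ => ℝ) 2) 1) := h.symm.compactSpace
  have h1 := no_iso' κ ↥(toWeakSpace ℝ (lp (fun _ : κ => ℝ) 2) ''
    Metric.closedBall (0 : lp (fun _ : κ => ℝ) 2) 1) L ⟨h⟩ (fun m => by
      rw [hκ]; exact succ_le_beth m)
  refine h1.false ?_
  exact ((ContinuousMap.linearIsometryBoundedOfCompact _ ℝ ℝ).toContinuousLinearEquiv.trans
    Φ).trans (ContinuousMap.linearIsometryBoundedOfCompact L ℝ ℝ).symm.toContinuousLinearEquiv

/-- the weak unit balls of isometric Hilbert spaces are homeomorphic -/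
noncomputable def ballHom {H H' : Type} [NormedAddCommGroup H] [InnerProductSpace ℝ H]
    [NormedAddCommGroup H'] [InnerProductSpace ℝ H'] (e : H ≃ₗᵢ[ℝ] H') :
    ↥(toWeakSpace ℝ H '' Metric.closedBall (0 : H) 1) ≃ₜ
      ↥(toWeakSpace ℝ H' '' Metric.closedBall (0 : H') 1) where
  toFun := fun x => ⟨WeakSpace.map (e.toContinuousLinearEquiv : H →L[ℝ] H') x.1, by
    obtain ⟨_, f, hf, rfl⟩ := x
    refine ⟨e f, ?_, rfl⟩
    rw [mem_closedBall_zero_iff] at hf ⊢
    rw [e.norm_map]
    exact hf⟩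
  invFun := fun x => ⟨WeakSpace.map (e.symm.toContinuousLinearEquiv : H' →L[ℝ] H) x.1, by
    obtain ⟨_, f, hf, rfl⟩ := x
    refine ⟨e.symm f, ?_, rfl⟩
    rw [mem_closedBall_zero_iff] at hf ⊢
    rw [e.symm.norm_map]
    exact hf⟩
  left_inv := fun x => Subtype.ext (e.symm_apply_apply _)
  right_inv := fun x => Subtype.ext (e.apply_symm_apply _)
  continuous_toFun := by
    apply Continuous.subtype_mk
    exact (WeakSpace.map (e.toContinuousLinearEquiv : H →L[ℝ] H')).continuous.comp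
      continuous_subtype_val
  continuous_invFun := by
    apply Continuous.subtype_mk
    exact (WeakSpace.map (e.symm.toContinuousLinearEquiv : H' →L[ℝ] H)).continuous.comp
      continuous_subtype_val

/-- the weak unit ball of a Hilbert space -/
theorem ball_U {H κ : Type} [NormedAddCommGroup H] [InnerProductSpace ℝ H]
    (b : HilbertBasis κ ℝ H) :
    Nonempty (↥(toWeakSpace ℝ H '' Metric.closedBall (0 : H) 1) ≃ₜ U κ) := by
  obtain ⟨h⟩ := hom κ
  exact ⟨(ballHom b.repr).trans h⟩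

/-- the weak unit ball of a Hilbert space is compact -/
theorem ball_compact {H κ : Type} [NormedAddCommGroup H] [InnerProductSpace ℝ H]
    (b : HilbertBasis κ ℝ H) :
    CompactSpace ↥(toWeakSpace ℝ H '' Metric.closedBall (0 : H) 1) := by
  haveI := cpt κ
  obtain ⟨h⟩ := ball_U b
  exact h.symm.compactSpace

end Pool.Agent.W683.BH
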