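import Pool.Agent.W683.BH.Help

/-!
# MP_9e0ccb_an: task AVG
-/

set_option autoImplicit false

namespace Pool.Agent.W683.BH

open Set Filter Topology Cardinal TopologicalSpace
open scoped Classical

/-- the set of indices which are missed by `y` -/
noncomputable def miss {L ι : Type} [TopologicalSpace L] [Fintype ι] (W : ι → Clopens L) (y : L) :
    Finset ι := Finset.univ.filter (fun i => y ∉ W i)

/-- the clopen set of the points in `V₀` missing exactly `A` -/
noncomputable def ZA {L ι : Type} [TopologicalSpace L] [Fintype ι] (V₀ : Clopens L)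
    (W : ι → Clopens L) (A : Finset ι) : Clopens L :=
  V₀ ⊓ Finset.univ.inf (fun i => if i ∈ A then (W i)ᶜ else W i)

theorem mem_ZA {L ι : Type} [TopologicalSpace L] [Fintype ι] (V₀ : Clopens L)
    (W : ι → Clopens L) (A : Finset ι) (y : L) : y ∈ ZA V₀ W A ↔ y ∈ V₀ ∧ miss W y = A := by
  unfold ZA
  have h1 : y ∈ V₀ ⊓ Finset.univ.inf (fun i => if i ∈ A then (W i)ᶜ else W i) ↔
      y ∈ V₀ ∧ y ∈ Finset.univ.inf (fun i => if i ∈ A then (W i)ᶜ else W i) := Iff.rfl
  rw [h1, mem_finf]
  constructor
  · rintro ⟨h, h2⟩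
    refine ⟨h, ?_⟩
    ext i
    unfold miss
    rw [Finset.mem_filter]
    have h3 := h2 i (Finset.mem_univ i)
    split_ifs at h3 with hi
    · exact ⟨fun _ => hi, fun _ => ⟨Finset.mem_univ i, h3⟩⟩
    · exact ⟨fun h4 => absurd h3 h4.2, fun h4 => absurd h4 hi⟩
  · rintro ⟨h, rfl⟩
    refine ⟨h, fun i _ => ?_⟩
    unfold miss
    split_ifs with hi
    · exact (Finset.mem_filter.1 hi).2
    · by_contra h3
      exact hi (Finset.mem_filter.2 ⟨Finset.mem_univ i, h3⟩)

theorem avg : T_AVG := by
  intro L X _ _ _ _ T M hT s n V₀ W q τ x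
  have hM : 0 ≤ M := le_trans T.opNorm_nonneg hT
  set J : (Fin s → Fin n) → Finset (Fin s × Fin n) := fun t =>
    Finset.univ.filter (fun i : Fin s × Fin n => ¬ (i.1 = q ∨ i.2 ≠ t i.1)) with hJ
  set NE : Finset (Finset (Fin s × Fin n)) := Finset.univ.erase ∅ with hNE
  -- decomposition
  have hdec : ∀ t, ind (missing V₀ W q t) =
      ∑ A ∈ NE, (if A ⊆ J t then (1 : ℝ) else 0) • ind (ZA V₀ W A) := by
    intro t
    ext y
    rw [ContinuousMap.sum_apply]
    simp only [ContinuousMap.smul_apply, smul_eq_mul]
    have hmem : y ∈ missing V₀ W q t ↔ y ∈ V₀ ∧ miss W y ≠ ∅ ∧ miss W y ⊆ J t := by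
      unfold missing
      have h1 : y ∈ (V₀ ⊓ (Finset.univ.filter
          (fun i : Fin s × Fin n => i.1 = q ∨ i.2 ≠ t i.1)).inf W) \
            (V₀ ⊓ Finset.univ.inf W) ↔ (y ∈ V₀ ∧ y ∈ (Finset.univ.filter
          (fun i : Fin s × Fin n => i.1 = q ∨ i.2 ≠ t i.1)).inf W) ∧
            ¬ (y ∈ V₀ ∧ y ∈ Finset.univ.inf W) := Iff.rfl
      rw [h1, mem_finf, mem_finf]
      constructor
      · rintro ⟨⟨h2, h3⟩, h4⟩
        refine ⟨h2, ?_, ?_⟩
        · intro h5
          apply h4
          refine ⟨h2, fun i _ => ?_⟩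
          by_contra h6
          have : i ∈ miss W y := Finset.mem_filter.2 ⟨Finset.mem_univ i, h6⟩
          rw [h5] at this
          exact absurd this (Finset.notMem_empty i)
        · intro i hi
          rw [hJ]
          refine Finset.mem_filter.2 ⟨Finset.mem_univ i, fun h6 => ?_⟩
          exact (Finset.mem_filter.1 hi).2 (h3 i (Finset.mem_filter.2 ⟨Finset.mem_univ i, h6⟩))
      · rintro ⟨h2, h3, h4⟩
        refine ⟨⟨h2, fun i hi => ?_⟩, ?_⟩
        · by_contra h6
          have h7 : i ∈ miss W y := Finset.mem_filter.2 ⟨Finset.mem_univ i, h6⟩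
          have h8 := h4 h7
          rw [hJ] at h8
          exact (Finset.mem_filter.1 h8).2 (Finset.mem_filter.1 hi).2
        · rintro ⟨-, h5⟩
          apply h3
          rw [Finset.eq_empty_iff_forall_notMem]
          intro i hi
          exact (Finset.mem_filter.1 hi).2 (h5 i (Finset.mem_univ i))
    by_cases hV : y ∈ V₀
    · by_cases hne : miss W y = ∅
      · rw [ind_not (fun h => (hmem.1 h).2.1 hne), Finset.sum_eq_zero]
        intro A hA
        rw [ind_not, mul_zero]
        rw [mem_ZA]
        rintro ⟨-, h⟩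
        rw [hNE, ← h, hne] at hA
        exact absurd rfl (Finset.ne_of_mem_erase hA)
      · rw [Finset.sum_eq_single_of_mem (miss W y)]
        · rw [ind_mem ((mem_ZA V₀ W _ y).2 ⟨hV, rfl⟩), mul_one, ind_apply]
          by_cases hs : miss W y ⊆ J t
          · rw [if_pos hs, if_pos (hmem.2 ⟨hV, hne, hs⟩)]
          · rw [if_neg hs, if_neg (fun h => hs (hmem.1 h).2.2)]
        · rw [hNE]
          exact Finset.mem_erase.2 ⟨hne, Finset.mem_univ _⟩
        · intro A _ hA
          rw [ind_not, mul_zero]
          rw [mem_ZA]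
          rintro ⟨-, h⟩
          exact hA h.symm
    · rw [ind_not (fun h => hV (hmem.1 h).1), Finset.sum_eq_zero]
      intro A _
      rw [ind_not, mul_zero]
      rw [mem_ZA]
      exact fun h => hV h.1
  -- total mass
  have hmass : ∑ A ∈ NE, |T (ind (ZA V₀ W A)) x| ≤ M := by
    have h1 := sum_abs_le NE (fun A => ZA V₀ W A) (by
      intro A _ B _ hAB y hA hB
      rw [mem_ZA] at hA hB
      exact hAB (hA.2.symm.trans hB.2)) (evT T x)
    refine h1.trans ((norm_evT_le T x).trans hT)
  -- counting
  have hcount : ∀ A ∈ NE, (n : ℝ) * (((Finset.univ.filter (fun t : Fin s → Fin n => t q = τ)).filter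
      (fun t => A ⊆ J t)).card : ℝ) ≤ (n : ℝ) ^ (s - 1) := by
    intro A hA
    have hAne : A ≠ ∅ := Finset.ne_of_mem_erase hA
    obtain ⟨i, hi⟩ := Finset.nonempty_iff_ne_empty.2 hAne
    by_cases hiq : i.1 = q
    · have : (Finset.univ.filter (fun t : Fin s → Fin n => t q = τ)).filter
          (fun t => A ⊆ J t) = ∅ := by
        rw [Finset.filter_eq_empty_iff]
        intro t _ hAt
        have h1 := hAt hi
        rw [hJ] at h1
        exact (Finset.mem_filter.1 h1).2 (Or.inl hiq)
      rw [this, Finset.card_empty]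
      simp only [Nat.cast_zero, mul_zero]
      positivity
    · -- inject into functions on the remaining coordinates
      have h1 : (Finset.univ.filter (fun t : Fin s → Fin n => t q = τ)).filter
          (fun t => A ⊆ J t) ⊆ Fintype.piFinset (fun p : Fin s =>
            if p = q then {τ} else if p = i.1 then {i.2} else Finset.univ) := by
        intro t ht
        rw [Finset.mem_filter, Finset.mem_filter] at ht
        rw [Fintype.mem_piFinset]
        intro p
        split_ifs with h2 h3
        · rw [h2, Finset.mem_singleton]; exact ht.1.2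
        · have h4 := ht.2 hi
          rw [hJ] at h4
          have h5 := (Finset.mem_filter.1 h4).2
          push Not at h5
          rw [h3, Finset.mem_singleton]
          exact h5.2.symm
        · exact Finset.mem_univ _
      have h2 := Finset.card_le_card h1
      rw [Fintype.card_piFinset] at h2
      have h3 : ∏ p : Fin s, (if p = q then ({τ} : Finset (Fin n)) else
          if p = i.1 then {i.2} else Finset.univ).card ≤ n ^ (s - 2) := by
        have h4 : ∏ p : Fin s, (if p = q then ({τ} : Finset (Fin n)) else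
          if p = i.1 then {i.2} else Finset.univ).card =
            ∏ p : Fin s, (if p ∈ (Finset.univ.erase q).erase i.1 then n else 1) := by
          apply Finset.prod_congr rfl
          intro p _
          by_cases h5 : p = q
          · rw [if_pos h5, if_neg (by simp [h5]), Finset.card_singleton]
          · by_cases h6 : p = i.1
            · rw [if_neg h5, if_pos h6, if_neg (by simp [h6]), Finset.card_singleton]
            · rw [if_neg h5, if_neg h6, if_pos (by simp [h5, h6]), Finset.card_univ,
                Fintype.card_fin]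
        rw [h4, Finset.prod_ite_mem, Finset.univ_inter, Finset.prod_const]
        rw [Finset.card_erase_of_mem (Finset.mem_erase.2 ⟨hiq, Finset.mem_univ _⟩),
          Finset.card_erase_of_mem (Finset.mem_univ q), Finset.card_univ, Fintype.card_fin]
        rfl
      have hs2 : 2 ≤ s := by
        have h5 := i.1.2
        have h6 := q.2
        by_contra h7
        apply hiq
        ext
        omega
      have h5 : (((Finset.univ.filter (fun t : Fin s → Fin n => t q = τ)).filter
          (fun t => A ⊆ J t)).card : ℝ) ≤ (n : ℝ) ^ (s - 2) := by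
        exact_mod_cast h2.trans h3
      have h6 : (n : ℝ) ^ (s - 1) = n * (n : ℝ) ^ (s - 2) := by
        rw [← pow_succ']
        congr 1
        omega
      rw [h6]
      exact mul_le_mul_of_nonneg_left h5 (by positivity)
  -- assembly
  have h1 : ∀ t, |T (ind (missing V₀ W q t)) x| ≤
      ∑ A ∈ NE, (if A ⊆ J t then (1 : ℝ) else 0) * |T (ind (ZA V₀ W A)) x| := by
    intro t
    rw [hdec t, map_sum, ContinuousMap.sum_apply]
    refine (Finset.abs_sum_le_sum_abs _ _).trans (Finset.sum_le_sum (fun A _ => ?_))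
    rw [map_smul, ContinuousMap.smul_apply, smul_eq_mul, abs_mul]
    split_ifs <;> simp
  calc (n : ℝ) * ∑ t ∈ Finset.univ.filter (fun t : Fin s → Fin n => t q = τ),
      |T (ind (missing V₀ W q t)) x| ≤
      (n : ℝ) * ∑ t ∈ Finset.univ.filter (fun t : Fin s → Fin n => t q = τ),
        ∑ A ∈ NE, (if A ⊆ J t then (1 : ℝ) else 0) * |T (ind (ZA V₀ W A)) x| :=
        mul_le_mul_of_nonneg_left (Finset.sum_le_sum (fun t _ => h1 t)) (by positivity)
    _ = ∑ A ∈ NE, ((n : ℝ) * (((Finset.univ.filter (fun t : Fin s → Fin n => t q = τ)).filter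
          (fun t => A ⊆ J t)).card : ℝ)) * |T (ind (ZA V₀ W A)) x| := by
        rw [Finset.sum_comm, Finset.mul_sum]
        apply Finset.sum_congr rfl
        intro A _
        rw [← Finset.sum_mul, Finset.sum_boole]
        ring
    _ ≤ ∑ A ∈ NE, (n : ℝ) ^ (s - 1) * |T (ind (ZA V₀ W A)) x| :=
        Finset.sum_le_sum (fun A hA => mul_le_mul_of_nonneg_right (hcount A hA) (abs_nonneg _))
    _ = (n : ℝ) ^ (s - 1) * ∑ A ∈ NE, |T (ind (ZA V₀ W A)) x| := by rw [Finset.mul_sum]
    _ ≤ (n : ℝ) ^ (s - 1) * M := mul_le_mul_of_nonneg_left hmass (by positivity)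
    _ = _ := mul_comm _ _

end Pool.Agent.W683.BH
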