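import Pool.Agent.W683.BH.Help

/-!
# MP_9e0ccb_an: task CHAIN, the final contradiction
-/

set_option autoImplicit false

namespace Pool.Agent.W683.BH

open Set Filter Topology Cardinal TopologicalSpace MeasureTheory
open scoped Classical

section

variable {κ L : Type} [TopologicalSpace L] [CompactSpace L] [T2Space L] [CompactSpace (U κ)]

/-- a point in the intersection of a decreasing sequence of nonempty clopen sets -/
theorem exists_common (W : ℕ → Clopens L) (hW : ∀ k, W (k + 1) ≤ W k) (hne : ∀ k, W k ≠ ⊥) :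
    ∃ y, ∀ k, y ∈ W k := by
  have h := IsCompact.nonempty_iInter_of_sequence_nonempty_isCompact_isClosed
    (fun k => (W k : Set L)) (fun k => hW k)
    (fun k => by
      obtain ⟨y, hy⟩ := (ne_bot_iff _).1 (hne k)
      exact ⟨y, hy⟩)
    (W 0).isClosed.isCompact (fun k => (W k).isClosed)
  obtain ⟨y, hy⟩ := h
  exact ⟨y, fun k => mem_iInter.1 hy k⟩

/-- pointwise convergence gives convergence under a functional -/
theorem tendsto_functional (hDOM : T_DOM) (φ : C(U κ, ℝ) →L[ℝ] ℝ) (f : ℕ → C(U κ, ℝ)) (B : ℝ)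
    (hB : ∀ k x, |f k x| ≤ B) (h0 : ∀ x, Tendsto (fun k => f k x) atTop (𝓝 0)) :
    Tendsto (fun k => φ (f k)) atTop (𝓝 0) := by
  letI : MeasurableSpace (U κ) := borel (U κ)
  haveI : BorelSpace (U κ) := ⟨rfl⟩
  obtain ⟨ρ, hfin, -, hρ⟩ := hDOM (U κ) φ
  have h1 : Tendsto (fun k => ∫ x, |f k x| ∂ρ) atTop (𝓝 (∫ _x, (0 : ℝ) ∂ρ)) := by
    apply tendsto_integral_of_dominated_convergence (fun _ => B)
    · intro k
      exact (f k).continuous.abs.aestronglyMeasurable
    · exact integrable_const B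
    · intro k
      apply Eventually.of_forall
      intro x
      rw [Real.norm_eq_abs, abs_abs]
      exact hB k x
    · apply Eventually.of_forall
      intro x
      have := (h0 x).abs
      rw [abs_zero] at this
      exact this
  rw [integral_zero] at h1
  apply squeeze_zero_norm (fun k => ?_) h1
  rw [Real.norm_eq_abs]
  exact hρ (f k)

end

/-- the function giving the size of the shifts -/
noncomputable def Th {κ ι : Type} (C : ι → Set κ) (θ : ι → ℝ) (P : Finset ι) (γ : κ) : ℝ :=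
  ∑ p ∈ P, if γ ∈ C p then 0 else θ p

theorem Th_nonneg {κ ι : Type} (C : ι → Set κ) (θ : ι → ℝ) (hθ : ∀ p, 0 ≤ θ p) (P : Finset ι)
    (γ : κ) : 0 ≤ Th C θ P γ := by
  unfold Th
  apply Finset.sum_nonneg
  intro p _
  split_ifs
  · exact le_refl _
  · exact hθ p

/-- shifts off the sets on which a function depends do not matter -/
theorem shift_eq {κ ι : Type} (sf : (κ → ℝ) → C(U κ, U κ))
    (hsf : ∀ Θ, (∀ γ, 0 ≤ Θ γ) → ∀ x γ, (sf Θ x).1 γ = soft (Θ γ) (x.1 γ))
    (C : ι → Set κ) (θ : ι → ℝ) (hθ : ∀ p, 0 ≤ θ p) (g : C(U κ, ℝ)) (q : ι)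
    (P : Finset ι) (hP : q ∉ P) (hg : ∀ p ∈ P, Dep g (C p)) (x : U κ) :
    g (sf (Th C θ (insert q P)) x) = g (sf (Th C θ {q}) x) := by
  induction P using Finset.induction with
  | empty => rfl
  | insert p P hpP ih =>
    have h1 : q ∉ P := fun h => hP (Finset.mem_insert_of_mem h)
    rw [← ih h1 (fun p hp => hg p (Finset.mem_insert_of_mem hp))]
    apply hg p (Finset.mem_insert_self p P)
    intro γ hγ
    rw [hsf _ (Th_nonneg C θ hθ _), hsf _ (Th_nonneg C θ hθ _)]
    congr 1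
    have hqp : q ≠ p := fun h => hP (by rw [h]; exact Finset.mem_insert_self p P)
    unfold Th
    have hcomm : insert q (insert p P) = insert p (insert q P) := by
      ext z; simp only [Finset.mem_insert]; tauto
    rw [hcomm, Finset.sum_insert, if_pos hγ, zero_add]
    rw [Finset.mem_insert]
    push Not
    exact ⟨Ne.symm hqp, hpP⟩

theorem shift_eq' {κ ι : Type} (sf : (κ → ℝ) → C(U κ, U κ))
    (hsf : ∀ Θ, (∀ γ, 0 ≤ Θ γ) → ∀ x γ, (sf Θ x).1 γ = soft (Θ γ) (x.1 γ))
    (C : ι → Set κ) (θ : ι → ℝ) (hθ : ∀ p, 0 ≤ θ p) (g : C(U κ, ℝ)) (q : ι)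
    (P : Finset ι) (hP : q ∈ P) (hg : ∀ p ∈ P, p ≠ q → Dep g (C p)) (x : U κ) :
    g (sf (Th C θ P) x) = g (sf (Th C θ {q}) x) := by
  have h1 := shift_eq sf hsf C θ hθ g q (P.erase q) (Finset.notMem_erase _ _)
    (fun p hp => hg p (Finset.mem_of_mem_erase hp) (Finset.ne_of_mem_erase hp)) x
  rw [Finset.insert_erase hP] at h1
  exact h1

theorem chain : T_CHAIN := by
  intro hDOM hSH hSHC hRM hAVG κ L _ _ _ _ I V N s n hs hn α C hA w hwN hne htail
  have hM := I.hM
  have hM0 : 0 < I.M := by linarith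
  have hM2 : 1 ≤ I.M ^ 2 := one_le_pow₀ hM
  have hsR : (2 : ℝ) < s := by linarith
  have hnR : (16 : ℝ) < n := by nlinarith
  have hn0 : 0 < n := by
    have : (0 : ℝ) < n := by linarith
    exact_mod_cast this
  have hs0 : 0 < s := by
    have : (0 : ℝ) < s := by linarith
    exact_mod_cast this
  set e : Fin s × Fin n ≃ Fin (s * n) := finProdFinEquiv with he
  -- configurations
  set Ks : Fin s → (Fin s → Fin n) → Finset (Fin (s * n)) := fun q t =>
    (Finset.univ.filter (fun i : Fin s × Fin n => i.1 = q ∨ i.2 ≠ t i.1)).map e.toEmbedding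
    with hKs
  set fK : ℕ → Finset (Fin (s * n)) → C(U κ, ℝ) := fun k K =>
    I.T (ind (VF V (Fw w k ∪ atm α K))) with hfK
  set W : Fin s × Fin n → Clopens L := fun i => V (α (e i)) (e i) with hW
  have hFwN : ∀ k, ∀ u ∈ Fw w k, u.1 ∈ N := by
    intro k u hu
    rw [mem_Fw] at hu
    obtain ⟨i, -, rfl⟩ := hu
    exact hwN i
  -- the point y
  obtain ⟨y, hy⟩ := exists_common (fun k => VF V (Fw w k ∪ atm α Finset.univ))
    (fun k => VF_anti V (Finset.union_subset_union (Fw_mono w (Nat.le_succ k)) (Finset.Subset.refl _)))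
    hne
  have hyK : ∀ k K, y ∈ VF V (Fw w k ∪ atm α K) := by
    intro k K
    apply VF_anti V _ (hy k)
    apply Finset.union_subset_union (Finset.Subset.refl _)
    unfold atm
    exact Finset.image_subset_image (Finset.subset_univ _)
  set φ : C(U κ, ℝ) →L[ℝ] ℝ := evT I.S y with hφ
  have hφn : ‖φ‖ ≤ I.M := (norm_evT_le I.S y).trans I.hS
  have hφT : ∀ g, φ (I.T g) = g y := by
    intro g
    rw [hφ, evT_apply, I.ST]
  -- shift maps
  have hsf0 : ∀ Θ : κ → ℝ, ∃ σ : C(U κ, U κ), (∀ γ, 0 ≤ Θ γ) →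
      ∀ x γ, (σ x).1 γ = soft (Θ γ) (x.1 γ) := by
    intro Θ
    by_cases h : ∀ γ, 0 ≤ Θ γ
    · obtain ⟨σ, hσ⟩ := hSH κ Θ h
      exact ⟨σ, fun _ => hσ⟩
    · exact ⟨ContinuousMap.id _, fun h' => absurd h' h⟩
  choose sf hsf using hsf0
  -- shift for one atom
  set Θ1 : Fin (s * n) → ℝ → κ → ℝ := fun i θ γ => if γ ∈ C i then 0 else θ with hΘ1
  have hΘ1n : ∀ i θ, 0 ≤ θ → ∀ γ, 0 ≤ Θ1 i θ γ := by
    intro i θ hθ γ
    simp only [hΘ1]
    split_ifs
    · exact le_refl _
    · exact hθ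
  -- bounds on fK
  have hTn : ∀ (g : C(L, ℝ)), ‖g‖ ≤ 1 → ∀ x, |I.T g x| ≤ I.M := by
    intro g hg x
    calc |I.T g x| = ‖I.T g x‖ := (Real.norm_eq_abs _).symm
      _ ≤ ‖I.T g‖ := ContinuousMap.norm_coe_le_norm _ x
      _ ≤ ‖I.T‖ * ‖g‖ := I.T.le_opNorm g
      _ ≤ I.M * 1 := mul_le_mul I.hT hg (norm_nonneg g) hM0.le
      _ = I.M := mul_one _
  -- C2
  have hC2 : ∀ θ : ℝ, 0 < θ → ∀ k₀ : ℕ, ∃ k, k₀ ≤ k ∧ ∀ i : Fin (s * n),
      |φ ((fK k Finset.univ).comp (sf (Θ1 i θ)))| ≤ 1 / 8 := by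
    intro θ hθ k₀
    have h1 : ∀ i : Fin (s * n), ∀ᶠ k in atTop,
        |φ ((fK k Finset.univ).comp (sf (Θ1 i θ)))| ≤ 1 / 8 := by
      intro i
      have h2 : Tendsto (fun k => φ ((fK k Finset.univ).comp (sf (Θ1 i θ)))) atTop (𝓝 0) := by
        apply tendsto_functional hDOM φ _ I.M
        · intro k x
          exact hTn _ (norm_ind_le _) _
        · intro x
          have h3 := hRM κ (C i) θ hθ x (sf (Θ1 i θ) x)
            (fun γ hγ => by
              rw [hsf _ (hΘ1n i θ hθ.le)]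
              simp only [hΘ1, if_pos hγ, soft_zero])
            (fun γ hγ => by
              rw [hsf _ (hΘ1n i θ hθ.le)]
              simp only [hΘ1, if_neg hγ])
          rcases h3 with h3 | h3
          · have h4 : ∀ k, ((fK k Finset.univ).comp (sf (Θ1 i θ))) x = 0 := by
              intro k
              exact hA.zero i (Fw w k) (hFwN k) _ h3
            simp only [h4]
            exact tendsto_const_nhds
          · exact htail _ h3
      have h5 := h2.abs
      rw [abs_zero] at h5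
      exact h5.eventually (eventually_le_nhds (by norm_num : (0 : ℝ) < 1 / 8))
    have h6 := (eventually_all.2 h1).and (eventually_ge_atTop k₀)
    obtain ⟨k, hk1, hk2⟩ := h6.exists
    exact ⟨k, hk2, hk1⟩
  -- C1
  have hC1 : ∀ k : ℕ, ∃ θ : ℝ, 0 < θ ∧ ∀ K : Finset (Fin (s * n)), ∀ x x' : U κ,
      (∀ γ, |x'.1 γ - x.1 γ| ≤ θ) → |fK k K x' - fK k K x| ≤ 1 / (8 * I.M) := by
    intro k
    have h1 : ∀ K : Finset (Fin (s * n)), ∃ θ : ℝ, 0 < θ ∧ ∀ x x' : U κ,
      (∀ γ, |x'.1 γ - x.1 γ| ≤ θ) → |fK k K x' - fK k K x| ≤ 1 / (8 * I.M) :=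
      fun K => hSHC κ (fK k K) (1 / (8 * I.M)) (by positivity)
    choose θ hθ hθ' using h1
    have hne2 : (Finset.univ : Finset (Finset (Fin (s * n)))).Nonempty := Finset.univ_nonempty
    refine ⟨Finset.univ.inf' hne2 θ, ?_, ?_⟩
    · rw [Finset.lt_inf'_iff]
      exact fun K _ => hθ K
    · intro K x x' hx
      apply hθ' K
      intro γ
      exact (hx γ).trans (Finset.inf'_le θ (Finset.mem_univ K))
  choose θ' hθ' hC1' using hC1
  choose k' hk' hC2' using hC2
  -- the levels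
  set st : ℕ → ℕ := fun k => k' (θ' k) (hθ' k) k with hst
  set kk : ℕ → ℕ := fun q => st^[q] 0 with hkk
  have hkk1 : ∀ q, kk (q + 1) = st (kk q) := by
    intro q
    simp only [hkk]
    rw [Function.iterate_succ_apply']
  have hkkm : Monotone kk := by
    apply monotone_nat_of_le_succ
    intro q
    rw [hkk1]
    exact hk' _ _ _
  set θθ : ℕ → ℝ := fun q => θ' (kk q) with hθθ
  have hθθ0 : ∀ q, 0 < θθ q := fun q => hθ' _
  have hsmall : ∀ (q : ℕ) (i : Fin (s * n)),
      |φ ((fK (kk (q + 1)) Finset.univ).comp (sf (Θ1 i (θθ q))))| ≤ 1 / 8 := by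
    intro q i
    rw [hkk1]
    exact hC2' _ _ _ i
  -- for a choice t
  set Ct : (Fin s → Fin n) → Fin s → Set κ := fun t q => C (e (q, t q)) with hCt
  set Θt : (Fin s → Fin n) → κ → ℝ := fun t => Th (Ct t) (fun q => θθ q) Finset.univ with hΘt
  set D : Fin s → (Fin s → Fin n) → Clopens L := fun q t =>
    VF V (Fw w (kk q) ∪ atm α (Ks q t)) \ VF V (Fw w (kk (q + 1)) ∪ atm α (Ks q t)) with hD
  -- reduction of the shift to the single atom q
  have hred : ∀ (k : ℕ) (q : Fin s) (t : Fin s → Fin n) (x : U κ),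
      fK k (Ks q t) (sf (Θt t) x) = fK k (Ks q t) (sf (Θ1 (e (q, t q)) (θθ q)) x) := by
    intro k q t x
    have h1 := shift_eq' sf hsf (Ct t) (fun q => θθ q) (fun p => (hθθ0 p).le) (fK k (Ks q t)) q
      Finset.univ (Finset.mem_univ q) (by
        intro p _ hpq
        apply hA.dep (e (p, t p)) (Ks q t) _ (Fw w k) (hFwN k)
        simp only [hKs]
        intro h
        rw [Finset.mem_map] at h
        obtain ⟨i, hi, hie⟩ := h
        have h2 : i = (p, t p) := e.injective hie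
        rw [Finset.mem_filter, h2] at hi
        rcases hi.2 with h3 | h3
        · exact hpq h3
        · exact h3 rfl) x
    rw [show Θt t = Th (Ct t) (fun q => θθ q) Finset.univ from rfl, h1]
    congr 3
    ext γ
    simp only [Th, Finset.sum_singleton, hΘ1, hCt]
  -- the missing sets
  set hh : Fin s → (Fin s → Fin n) → C(U κ, ℝ) := fun q t =>
    I.T (ind (missing (VF V (Fw w (kk (q + 1)))) W q t)) with hhh
  have hmiss : ∀ (q : Fin s) (t : Fin s → Fin n),
      fK (kk (q + 1)) (Ks q t) = fK (kk (q + 1)) Finset.univ + hh q t := by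
    intro q t
    have h1 : VF V (Fw w (kk (q + 1)) ∪ atm α (Ks q t)) = VF V (Fw w (kk (q + 1))) ⊓
        (Finset.univ.filter (fun i : Fin s × Fin n => i.1 = q ∨ i.2 ≠ t i.1)).inf W := by
      rw [VF_union, VF_atm]
      congr 1
      simp only [hKs]
      rw [Finset.inf_map]
      rfl
    have h2 : VF V (Fw w (kk (q + 1)) ∪ atm α Finset.univ) = VF V (Fw w (kk (q + 1))) ⊓
        Finset.univ.inf W := by
      rw [VF_union, VF_atm]
      congr 1
      rw [← Finset.map_univ_equiv e, Finset.inf_map]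
      rfl
    simp only [hfK, hhh]
    rw [← map_add]
    congr 1
    unfold missing
    rw [h1, h2, ind_sdiff]
    · ring
    · exact inf_le_inf_left _ (Finset.inf_mono (Finset.filter_subset _ _))
  set dl : Fin s → (Fin s → Fin n) → ℝ := fun q t =>
    φ ((hh q t).comp (sf (Θ1 (e (q, t q)) (θθ q)))) with hdl
  -- lower bound for each q
  have hlow : ∀ (q : Fin s) (t : Fin s → Fin n),
      3 / 4 - |dl q t| ≤ φ ((I.T (ind (D q t))).comp (sf (Θt t))) := by
    intro q t
    have hDle : VF V (Fw w (kk (q + 1)) ∪ atm α (Ks q t)) ≤ VF V (Fw w (kk q) ∪ atm α (Ks q t)) :=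
      VF_anti V (Finset.union_subset_union (Fw_mono w (hkkm (Nat.le_succ _)))
        (Finset.Subset.refl _))
    have h1 : (I.T (ind (D q t))).comp (sf (Θt t)) =
        (fK (kk q) (Ks q t)).comp (sf (Θt t)) -
          (fK (kk (q + 1)) Finset.univ).comp (sf (Θ1 (e (q, t q)) (θθ q))) -
            (hh q t).comp (sf (Θ1 (e (q, t q)) (θθ q))) := by
      ext x
      have h2 : I.T (ind (D q t)) = fK (kk q) (Ks q t) - fK (kk (q + 1)) (Ks q t) := by
        simp only [hD, hfK]
        rw [ind_sdiff hDle, map_sub]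
      rw [ContinuousMap.comp_apply, h2, ContinuousMap.sub_apply, hred (kk (q + 1)) q t x, hmiss]
      simp only [ContinuousMap.sub_apply, ContinuousMap.add_apply, ContinuousMap.comp_apply]
      ring
    rw [h1, map_sub, map_sub]
    have h3 : |φ ((fK (kk q) (Ks q t)).comp (sf (Θt t))) - 1| ≤ 1 / 8 := by
      have h4 : φ (fK (kk q) (Ks q t)) = 1 := by
        simp only [hfK]
        rw [hφT, ind_mem (hyK _ _)]
      have h4' : φ ((fK (kk q) (Ks q t)).comp (sf (Θt t))) - 1 =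
          φ ((fK (kk q) (Ks q t)).comp (sf (Θt t)) - fK (kk q) (Ks q t)) := by
        rw [map_sub, h4]
      rw [h4']
      have h5 : ‖(fK (kk q) (Ks q t)).comp (sf (Θt t)) - fK (kk q) (Ks q t)‖ ≤ 1 / (8 * I.M) := by
        rw [ContinuousMap.norm_le _ (by positivity)]
        intro x
        rw [Real.norm_eq_abs, ContinuousMap.sub_apply, ContinuousMap.comp_apply, hred]
        apply hC1' (kk q) (Ks q t) x
        intro γ
        rw [hsf _ (hΘ1n _ _ (hθθ0 q).le)]
        simp only [hΘ1]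
        split_ifs
        · rw [soft_zero, sub_self, abs_zero]; exact (hθθ0 q).le
        · exact abs_soft_sub_le _ _ (hθθ0 q).le
      calc |φ ((fK (kk q) (Ks q t)).comp (sf (Θt t)) - fK (kk q) (Ks q t))| ≤
          ‖φ‖ * ‖(fK (kk q) (Ks q t)).comp (sf (Θt t)) - fK (kk q) (Ks q t)‖ := φ.le_opNorm _
        _ ≤ I.M * (1 / (8 * I.M)) := mul_le_mul hφn h5 (norm_nonneg _) hM0.le
        _ = 1 / 8 := by field_simp
    have h6 := hsmall q (e (q, t q))
    have h7 := abs_le.1 h3
    have h8 := abs_le.1 h6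
    have h9 := le_abs_self (dl q t)
    have h10 : φ ((hh q t).comp (sf (Θ1 (e (q, t q)) (θθ q)))) = dl q t := rfl
    rw [h10]
    linarith [h7.1, h8.2]
  -- disjointness
  have hdis : ∀ (t : Fin s → Fin n) (q q' : Fin s), q < q' → ∀ z, z ∈ D q t → z ∉ D q' t := by
    intro t q q' hqq z hz hz'
    have h1 : z ∈ VF V (Fw w (kk q) ∪ atm α (Ks q t)) ∧
        z ∉ VF V (Fw w (kk (q + 1)) ∪ atm α (Ks q t)) := hz
    have h2 : z ∈ VF V (Fw w (kk q') ∪ atm α (Ks q' t)) := hz'.1
    apply h1.2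
    rw [VF_union] at h1 h2 ⊢
    refine ⟨?_, h1.1.2⟩
    have h3 : kk (q + 1) ≤ kk q' := hkkm (by
      have : (q : ℕ) < q' := hqq
      omega)
    exact VF_anti V (Fw_mono w h3) h2.1
  have hup : ∀ t : Fin s → Fin n, ∑ q : Fin s, φ ((I.T (ind (D q t))).comp (sf (Θt t))) ≤
      I.M ^ 2 := by
    intro t
    have h1 : ∑ q : Fin s, φ ((I.T (ind (D q t))).comp (sf (Θt t))) =
        φ ((I.T (∑ q : Fin s, (1 : ℝ) • ind (D q t))).comp (sf (Θt t))) := by
      rw [← map_sum]
      congr 1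
      ext x
      rw [ContinuousMap.sum_apply, ContinuousMap.comp_apply, map_sum, ContinuousMap.sum_apply]
      apply Finset.sum_congr rfl
      intro q _
      rw [one_smul, ContinuousMap.comp_apply]
    have h2 : ‖∑ q : Fin s, (1 : ℝ) • ind (D q t)‖ ≤ 1 := by
      apply norm_sum_ind_le Finset.univ (fun q => D q t) _ (fun _ => 1)
      · intro _; simp
      · intro q _ q' _ hqq z hz hz'
        rcases lt_or_gt_of_ne hqq with h | h
        · exact hdis t q q' h z hz hz'
        · exact hdis t q' q h z hz' hz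
    have h3 : ‖(I.T (∑ q : Fin s, (1 : ℝ) • ind (D q t))).comp (sf (Θt t))‖ ≤ I.M := by
      rw [ContinuousMap.norm_le _ hM0.le]
      intro x
      rw [Real.norm_eq_abs]
      exact hTn _ h2 _
    rw [h1]
    calc _ ≤ |φ ((I.T (∑ q : Fin s, (1 : ℝ) • ind (D q t))).comp (sf (Θt t)))| := le_abs_self _
      _ ≤ ‖φ‖ * ‖(I.T (∑ q : Fin s, (1 : ℝ) • ind (D q t))).comp (sf (Θt t))‖ := φ.le_opNorm _
      _ ≤ I.M * I.M := mul_le_mul hφn h3 (norm_nonneg _) hM0.le
      _ = I.M ^ 2 := by ring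
  -- averaging
  have havg : ∀ q : Fin s, ∑ t : Fin s → Fin n, |dl q t| ≤ I.M ^ 2 * (n : ℝ) ^ (s - 1) := by
    intro q
    have h1 : ∑ t : Fin s → Fin n, |dl q t| = ∑ τ : Fin n,
        ∑ t ∈ Finset.univ.filter (fun t : Fin s → Fin n => t q = τ), |dl q t| := by
      rw [Finset.sum_fiberwise]
    have h2 : ∀ τ : Fin n, n * ∑ t ∈ Finset.univ.filter (fun t : Fin s → Fin n => t q = τ),
        |dl q t| ≤ I.M ^ 2 * (n : ℝ) ^ (s - 1) := by
      intro τ
      set Aτ := Finset.univ.filter (fun t : Fin s → Fin n => t q = τ) with hAτ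
      set σ := sf (Θ1 (e (q, τ)) (θθ q)) with hσ
      have h3 : ∑ t ∈ Aτ, |dl q t| =
          φ (∑ t ∈ Aτ, (SignType.sign (dl q t) : ℝ) • (hh q t).comp σ) := by
        rw [map_sum]
        apply Finset.sum_congr rfl
        intro t ht
        rw [hAτ, Finset.mem_filter] at ht
        rw [map_smul, smul_eq_mul]
        have h4 : φ ((hh q t).comp σ) = dl q t := by
          simp only [hdl, hσ]
          rw [ht.2]
        rw [h4, sign_mul_self]
      have h5 : ‖∑ t ∈ Aτ, (SignType.sign (dl q t) : ℝ) • (hh q t).comp σ‖ ≤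
          I.M * (n : ℝ) ^ (s - 1) / n := by
        rw [ContinuousMap.norm_le _ (by positivity)]
        intro x
        rw [ContinuousMap.sum_apply]
        have h6 := hAVG L (U κ) I.T I.M I.hT s n (VF V (Fw w (kk (q + 1)))) W q τ (σ x)
        rw [le_div_iff₀ (by linarith), mul_comm]
        refine le_trans (mul_le_mul_of_nonneg_left ?_ (by linarith)) h6
        refine (norm_sum_le _ _).trans (Finset.sum_le_sum (fun t _ => ?_))
        rw [ContinuousMap.smul_apply, norm_smul, ContinuousMap.comp_apply]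
        have h7 : ‖(SignType.sign (dl q t) : ℝ)‖ ≤ 1 := by
          rw [Real.norm_eq_abs]
          rcases lt_trichotomy (dl q t) 0 with h | h | h
          · simp [sign_neg h]
          · simp [h]
          · simp [sign_pos h]
        calc ‖(SignType.sign (dl q t) : ℝ)‖ * ‖(hh q t) (σ x)‖ ≤ 1 * ‖(hh q t) (σ x)‖ :=
              mul_le_mul_of_nonneg_right h7 (norm_nonneg _)
          _ = |(hh q t) (σ x)| := by rw [one_mul, Real.norm_eq_abs]
      have h8 : ∑ t ∈ Aτ, |dl q t| ≤ I.M * (I.M * (n : ℝ) ^ (s - 1) / n) := by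
        rw [h3]
        calc _ ≤ |φ (∑ t ∈ Aτ, (SignType.sign (dl q t) : ℝ) • (hh q t).comp σ)| :=
              le_abs_self _
          _ ≤ ‖φ‖ * ‖∑ t ∈ Aτ, (SignType.sign (dl q t) : ℝ) • (hh q t).comp σ‖ := φ.le_opNorm _
          _ ≤ _ := mul_le_mul hφn h5 (norm_nonneg _) hM0.le
      calc (n : ℝ) * ∑ t ∈ Aτ, |dl q t| ≤ n * (I.M * (I.M * (n : ℝ) ^ (s - 1) / n)) :=
            mul_le_mul_of_nonneg_left h8 (by linarith)
        _ = _ := by field_simp
    rw [h1]
    have h9 : (n : ℝ) * ∑ τ : Fin n,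
        ∑ t ∈ Finset.univ.filter (fun t : Fin s → Fin n => t q = τ), |dl q t| ≤
        n * (I.M ^ 2 * (n : ℝ) ^ (s - 1)) := by
      rw [Finset.mul_sum]
      refine (Finset.sum_le_sum (fun τ _ => h2 τ)).trans ?_
      rw [Finset.sum_const, Finset.card_univ, Fintype.card_fin, nsmul_eq_mul]
    exact le_of_mul_le_mul_left h9 (by linarith)
  -- conclusion
  have htot : ∑ t : Fin s → Fin n, ∑ q : Fin s, (3 / 4 - |dl q t|) ≤
      ∑ t : Fin s → Fin n, I.M ^ 2 := by
    apply Finset.sum_le_sum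
    intro t _
    exact (Finset.sum_le_sum (fun q _ => hlow q t)).trans (hup t)
  have hcard : ((Fintype.card (Fin s → Fin n) : ℕ) : ℝ) = (n : ℝ) ^ s := by
    rw [Fintype.card_fun, Fintype.card_fin, Fintype.card_fin]
    push_cast
    rfl
  have h1 : ∑ t : Fin s → Fin n, I.M ^ 2 = (n : ℝ) ^ s * I.M ^ 2 := by
    rw [Finset.sum_const, Finset.card_univ, nsmul_eq_mul, hcard]
  have h2 : ∑ t : Fin s → Fin n, ∑ q : Fin s, (3 / 4 - |dl q t|) =
      (n : ℝ) ^ s * (s * (3 / 4)) - ∑ q : Fin s, ∑ t : Fin s → Fin n, |dl q t| := by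
    rw [Finset.sum_comm]
    simp only [Finset.sum_sub_distrib, Finset.sum_const, Finset.card_univ, nsmul_eq_mul,
      Fintype.card_fin, hcard]
    ring
  have h3 : ∑ q : Fin s, ∑ t : Fin s → Fin n, |dl q t| ≤
      s * (I.M ^ 2 * (n : ℝ) ^ (s - 1)) := by
    refine (Finset.sum_le_sum (fun q _ => havg q)).trans ?_
    rw [Finset.sum_const, Finset.card_univ, Fintype.card_fin, nsmul_eq_mul]
  rw [h1, h2] at htot
  have h4 : (n : ℝ) ^ s = n * (n : ℝ) ^ (s - 1) := by
    rw [← pow_succ']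
    congr 1
    omega
  have h5 : (0 : ℝ) < (n : ℝ) ^ (s - 1) := by positivity
  rw [h4] at htot
  have h6 : (n * (s * (3 / 4)) : ℝ) ≤ n * I.M ^ 2 + s * I.M ^ 2 := by
    have h7 : (n * (s * (3 / 4)) : ℝ) * (n : ℝ) ^ (s - 1) ≤
        (n * I.M ^ 2 + s * I.M ^ 2) * (n : ℝ) ^ (s - 1) := by nlinarith
    exact le_of_mul_le_mul_right h7 h5
  nlinarith

end Pool.Agent.W683.BH
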