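import Pool.Agent.W683.BH.Help

/-!
# MP_9e0ccb_an: tasks CPT, SH, RM
-/

set_option autoImplicit false

namespace Pool.Agent.W683.BH

open Set Filter Topology Cardinal TopologicalSpace
open scoped Classical

theorem abs_le_one_of_UB {κ : Type} {x : κ → ℝ} (hx : x ∈ UB κ) (i : κ) : |x i| ≤ 1 := by
  have h := hx {i}
  rw [Finset.sum_singleton] at h
  exact abs_le_one_iff_mul_self_le_one.2 (by nlinarith)

theorem isClosed_UB (κ : Type) : IsClosed (UB κ) := by
  have : UB κ = ⋂ A : Finset κ, {x : κ → ℝ | ∑ i ∈ A, x i ^ 2 ≤ 1} := by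
    ext x; simp [UB]
  rw [this]
  apply isClosed_iInter
  intro A
  exact isClosed_le (continuous_finsetSum _ (fun i _ => (continuous_apply i).pow 2))
    continuous_const

theorem cpt : T_CPT := by
  intro κ
  apply isCompact_iff_compactSpace.1
  have h1 : IsCompact (Set.pi univ (fun _ : κ => Icc (-1 : ℝ) 1)) :=
    isCompact_univ_pi (fun _ => isCompact_Icc)
  apply h1.of_isClosed_subset (isClosed_UB κ)
  intro x hx i _
  exact abs_le.1 (abs_le_one_of_UB hx i)

theorem soft_eq (θ t : ℝ) (hθ : 0 ≤ θ) : soft θ t = max (t - θ) 0 + min (t + θ) 0 := by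
  unfold soft
  split_ifs with h1 h2
  · rw [max_eq_left (by linarith), min_eq_right (by linarith)]; ring
  · rw [max_eq_right (by linarith), min_eq_left (by linarith)]; ring
  · push Not at h1 h2
    rw [max_eq_right (by linarith), min_eq_right (by linarith)]; ring

theorem abs_soft_le (θ t : ℝ) (hθ : 0 ≤ θ) : |soft θ t| ≤ |t| := by
  unfold soft
  split_ifs with h1 h2
  · rw [abs_of_nonneg (by linarith : (0 : ℝ) ≤ t - θ), abs_of_nonneg (by linarith : (0 : ℝ) ≤ t)]
    linarith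
  · rw [abs_of_nonpos (by linarith : t + θ ≤ 0), abs_of_nonpos (by linarith : t ≤ 0)]
    linarith
  · rw [abs_zero]; positivity

theorem soft_sq_le (θ t : ℝ) (hθ : 0 ≤ θ) : soft θ t ^ 2 ≤ t ^ 2 :=
  sq_le_sq.2 (abs_soft_le θ t hθ)

theorem sh_map : T_SH := by
  intro κ Θ hΘ
  have hmem : ∀ x : U κ, (fun γ => soft (Θ γ) (x.1 γ)) ∈ UB κ := by
    intro x A
    exact (Finset.sum_le_sum (fun i _ => soft_sq_le _ _ (hΘ i))).trans (x.2 A)
  refine ⟨⟨fun x => ⟨fun γ => soft (Θ γ) (x.1 γ), hmem x⟩, ?_⟩, fun x γ => rfl⟩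
  apply Continuous.subtype_mk
  apply continuous_pi
  intro γ
  have h : Continuous (fun x : U κ => x.1 γ) := (continuous_apply γ).comp continuous_subtype_val
  have h2 : (fun x : U κ => soft (Θ γ) (x.1 γ)) =
      fun x : U κ => max (x.1 γ - Θ γ) 0 + min (x.1 γ + Θ γ) 0 := by
    ext x; exact soft_eq _ _ (hΘ γ)
  rw [h2]
  exact ((h.sub continuous_const).max continuous_const).add
    ((h.add continuous_const).min continuous_const)

theorem rm : T_RM := by
  intro κ C θ hθ x y hC hC'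
  by_cases h : ∀ γ, γ ∉ C → y.1 γ = 0
  · exact Or.inl h
  · right
    push Not at h
    obtain ⟨γ, hγ, hne⟩ := h
    have hle : ∀ i, y.1 i ^ 2 ≤ x.1 i ^ 2 := by
      intro i
      by_cases hi : i ∈ C
      · rw [hC i hi]
      · rw [hC' i hi]; exact soft_sq_le _ _ hθ.le
    have hg : y.1 γ ^ 2 ≤ x.1 γ ^ 2 - θ ^ 2 := by
      rw [hC' γ hγ] at hne ⊢
      unfold soft at hne ⊢
      split_ifs at hne ⊢ with h1 h2
      · nlinarith
      · nlinarith
      · exact absurd rfl hne
    refine ⟨θ ^ 2, by positivity, fun A => ?_⟩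
    have h1 : ∑ i ∈ A, y.1 i ^ 2 ≤ ∑ i ∈ insert γ A, y.1 i ^ 2 :=
      Finset.sum_le_sum_of_subset_of_nonneg (Finset.subset_insert _ _)
        (fun i _ _ => by positivity)
    have h2 : ∑ i ∈ insert γ A, y.1 i ^ 2 ≤ 1 - θ ^ 2 := by
      rw [← Finset.add_sum_erase _ _ (Finset.mem_insert_self γ A)]
      have h3 := x.2 (insert γ A)
      rw [← Finset.add_sum_erase _ _ (Finset.mem_insert_self γ A)] at h3
      have h4 : ∑ i ∈ (insert γ A).erase γ, y.1 i ^ 2 ≤
          ∑ i ∈ (insert γ A).erase γ, x.1 i ^ 2 := Finset.sum_le_sum (fun i _ => hle i)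
      linarith
    exact h1.trans h2

end Pool.Agent.W683.BH
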