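import Mathlib

/-!
# MP_9e0ccb_an, MP_751bb7_an: definitions

For large `κ` the space `C(U κ)` of continuous functions on the weakly compact unit ball `U κ` of
`ℓ₂(κ)` is not isomorphic to `C(L)` for any totally disconnected compact space `L`.
-/

set_option autoImplicit false

namespace Pool.Agent.W683.BH

open Set Filter Topology Cardinal TopologicalSpace
open scoped Classical

/-! ### the ball -/

/-- the closed unit ball of `ℓ₂(κ)`; it carries the topology of pointwise convergence -/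
def UB (κ : Type) : Set (κ → ℝ) := {x | ∀ A : Finset κ, ∑ i ∈ A, x i ^ 2 ≤ 1}

/-- the ball as a topological space -/
abbrev U (κ : Type) : Type := ↥(UB κ)

/-- `f` depends only on the coordinates in `C` -/
def Dep {κ : Type} (f : C(U κ, ℝ)) (C : Set κ) : Prop :=
  ∀ x y : U κ, (∀ γ ∈ C, x.1 γ = y.1 γ) → f x = f y

/-- `x` has norm less than one -/
def Room {κ : Type} (x : U κ) : Prop :=
  ∃ η : ℝ, 0 < η ∧ ∀ A : Finset κ, ∑ i ∈ A, x.1 i ^ 2 ≤ 1 - η

/-- small sets of coordinates -/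
def Small {κ : Type} (S : Set κ) : Prop := #S ≤ 𝔠

theorem restr_mem {κ : Type} (x : U κ) (C : Set κ) : C.indicator x.1 ∈ UB κ := by
  intro A
  refine le_trans (Finset.sum_le_sum (fun i _ => ?_)) (x.2 A)
  by_cases h : i ∈ C
  · rw [indicator_of_mem h]
  · rw [indicator_of_notMem h]; simpa using sq_nonneg (x.1 i)

/-- restriction of `x` to the coordinates in `C` (zero elsewhere) -/
noncomputable def restr {κ : Type} (x : U κ) (C : Set κ) : U κ := ⟨C.indicator x.1, restr_mem x C⟩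

/-! ### indicators of clopen sets, finite configurations -/

/-- the indicator function of a clopen set -/
noncomputable def ind {L : Type} [TopologicalSpace L] (V : Clopens L) : C(L, ℝ) where
  toFun := fun y => if y ∈ V then 1 else 0
  continuous_toFun := by
    apply Continuous.if _ continuous_const continuous_const
    intro a ha
    have h : frontier {x | x ∈ V} = ∅ := V.isClopen.frontier_eq
    rw [h] at ha
    exact absurd ha (Set.notMem_empty a)

/-- the intersection of the clopen sets `V γ k`, `(γ, k) ∈ F` -/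
noncomputable def VF {κ L : Type} [TopologicalSpace L] (V : κ → ℕ → Clopens L)
    (F : Finset (κ × ℕ)) : Clopens L := F.inf (fun w => V w.1 w.2)

/-- the first `n` elements of the sequence `w` -/
noncomputable def Fw {κ : Type} (w : ℕ → κ × ℕ) (n : ℕ) : Finset (κ × ℕ) :=
  (Finset.range n).image w

/-- the atoms `(α q, q)`, `q ∈ J` -/
noncomputable def atm {κ : Type} {r : ℕ} (α : Fin r → κ) (J : Finset (Fin r)) : Finset (κ × ℕ) :=
  J.image (fun q => (α q, (q : ℕ)))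

/-- shift of the scales by `r` -/
noncomputable def sh {κ : Type} (r : ℕ) (F : Finset (κ × ℕ)) : Finset (κ × ℕ) :=
  F.image (fun w => (w.1, r + w.2))

/-! ### the isomorphism -/

/-- an isomorphism between `C(L)` and `C(U κ)`, with norms at most `M` -/
structure Iso (κ L : Type) [TopologicalSpace L] [CompactSpace L] [CompactSpace (U κ)] where
  T : C(L, ℝ) →L[ℝ] C(U κ, ℝ)
  S : C(U κ, ℝ) →L[ℝ] C(L, ℝ)
  M : ℝ
  TS : ∀ f, T (S f) = f
  ST : ∀ g, S (T g) = g
  hM : 1 ≤ M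
  hT : ‖T‖ ≤ M
  hS : ‖S‖ ≤ M

/-- the combinatorial structure found in `L` -/
structure Sys (κ L : Type) [TopologicalSpace L] where
  V : κ → ℕ → Clopens L
  g : Finset κ
  Nb : ℕ → ℕ
  order : ∀ (k : ℕ) (y : L) (A : Finset κ), (∀ γ ∈ A, y ∈ V γ k) → A.card ≤ Nb k
  basic : ∀ F : Finset (κ × ℕ), (∀ w ∈ F, w.1 ∉ g) → InjOn Prod.fst (F : Set (κ × ℕ)) →
    InjOn Prod.snd (F : Set (κ × ℕ)) → VF V F ≠ ⊥

/-! ### the base argument -/

/-- the scales; the sum of the squares is `1` -/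
noncomputable def cc (k : ℕ) : ℝ := Real.sqrt ((1 / 2) ^ (k + 1))

/-- `φ_k(x_γ)`, `φ_k(t) = 0` for `|t| ≤ c_k / 2` and `= 1` for `|t| ≥ c_k` -/
noncomputable def ph {κ : Type} (k : ℕ) (γ : κ) : C(U κ, ℝ) where
  toFun := fun x => max 0 (min 1 (2 * |x.1 γ| / cc k - 1))
  continuous_toFun := by
    have h : Continuous (fun x : U κ => x.1 γ) := (continuous_apply γ).comp continuous_subtype_val
    exact continuous_const.max (continuous_const.min
      (((continuous_const.mul h.abs).div_const _).sub continuous_const))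

/-- a bump function which isolates the point with coordinates `c_i` at `γ i` -/
noncomputable def hb {κ : Type} (γ : ℕ → κ) (n : ℕ) : C(U κ, ℝ) where
  toFun := fun x => ∏ i ∈ Finset.range n, max 0 (1 - n * |x.1 (γ i) - cc i|)
  continuous_toFun := by
    have h : ∀ i, Continuous (fun x : U κ => x.1 (γ i)) :=
      fun i => (continuous_apply (γ i)).comp continuous_subtype_val
    exact continuous_finsetProd _ (fun i _ => continuous_const.max
      (continuous_const.sub (continuous_const.mul ((h i).sub continuous_const).abs)))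

/-- `n` is a base for the sequence `γ` -/
def Base {κ L : Type} [TopologicalSpace L] [CompactSpace L] [CompactSpace (U κ)] (I : Iso κ L)
    (γ : ℕ → κ) (n : ℕ) : Prop :=
  ∃ y : L, ∀ k : ℕ, 3 / (8 * I.M) ≤ |I.S (hb γ n * ph k (γ k)) y|

/-! ### the tail -/

/-- the data for the construction of the tail -/
structure TE (κ : Type) where
  N : Set κ
  P : Finset (κ × ℕ) → Prop
  f : Finset (κ × ℕ) → C(U κ, ℝ)
  M : ℝ
  Nb : ℕ → ℕ
  hN : 𝔠 < #N
  anti : ∀ F F' : Finset (κ × ℕ), F ⊆ F' → P F' → P F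
  basic : ∀ F : Finset (κ × ℕ), (∀ w ∈ F, w.1 ∈ N) → InjOn Prod.fst (F : Set (κ × ℕ)) →
    InjOn Prod.snd (F : Set (κ × ℕ)) → P F
  order : ∀ (k : ℕ) (F : Finset (κ × ℕ)), (∀ w ∈ F, w.2 = k) → P F → F.card ≤ Nb k
  dep : ∀ F, ∃ C : Set κ, C.Countable ∧ Dep (f F) C
  disj : ∀ A : Finset (Finset (κ × ℕ)), (∀ F ∈ A, ∀ F' ∈ A, F ≠ F' → ¬ P (F ∪ F')) →
    ∀ x : U κ, ∑ F ∈ A, |f F x| ≤ M
  mono : ∀ F : ℕ → Finset (κ × ℕ), Monotone F → ∀ (x : U κ) (n : ℕ),
    ∑ i ∈ Finset.range n, |f (F i) x - f (F (i + 1)) x| ≤ M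

/-- bad configurations -/
inductive Bad {κ : Type} (E : TE κ) : Finset (κ × ℕ) → Prop
  | emp (F : Finset (κ × ℕ)) (h : ¬ E.P F) : Bad E F
  | step (F : Finset (κ × ℕ)) (S : Set κ) (hS : Small S)
      (h : ∀ w : κ × ℕ, w.1 ∈ E.N → w.1 ∉ S → Bad E (insert w F)) : Bad E F

/-- `F` cannot be extended generically by an element of scale `j` -/
def Closed {κ : Type} (E : TE κ) (F : Finset (κ × ℕ)) (j : ℕ) : Prop :=
  ∃ S : Set κ, Small S ∧ ∀ u : κ × ℕ, u.1 ∈ E.N → u.1 ∉ S → u.2 = j → Bad E (insert u F)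

/-- `e` enumerates (injectively) a set of coordinates which contains all coordinates relevant for
the sequence `w` -/
structure IsEn {κ : Type} (E : TE κ) (w : ℕ → κ × ℕ) (e : ℕ → κ) : Prop where
  inj : Function.Injective e
  mem : ∀ n, (w n).1 ∈ range e
  dep : ∀ n, Dep (E.f (Fw w n)) (range e)

/-- codes of enumerated sequences -/
structure Code where
  p : ℕ → ℕ
  k : ℕ → ℕ
  φ : ℕ → C(U ℕ, ℝ)
  cl : ℕ → Set ℕ

/-- `c` is the code of the enumerated sequence `(w, e)` -/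
structure HasCode {κ : Type} (E : TE κ) (w : ℕ → κ × ℕ) (e : ℕ → κ) (c : Code) : Prop where
  hp : ∀ n, (w n).1 = e (c.p n)
  hk : ∀ n, (w n).2 = c.k n
  hφ : ∀ n (z : U ℕ) (x : U κ), (∀ i, x.1 (e i) = z.1 i) → (∀ γ, γ ∉ range e → x.1 γ = 0) →
    E.f (Fw w n) x = c.φ n z
  hcl : ∀ n j, Closed E (Fw w n) j ↔ j ∈ c.cl n

/-- `w` is generic over `S` from `n₀` on -/
structure Gen {κ : Type} (E : TE κ) (D : Finset (κ × ℕ) → List (κ × ℕ) → Set κ) (S : Set κ)
    (n₀ : ℕ) (w : ℕ → κ × ℕ) : Prop where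
  mem : ∀ n, (w n).1 ∈ E.N
  out : ∀ n, n₀ ≤ n → (w n).1 ∉ S
  gen : ∀ F : Finset (κ × ℕ), (∀ u ∈ F, u.1 ∈ S ∨ ∃ i ≤ n₀, u.1 = (w i).1) → Bad E F →
    ∀ n, (w (n₀ + 1 + n)).1 ∉ D F ((List.range n).map (fun i => w (n₀ + 1 + i)))

/-- the function `D` kills bad configurations -/
structure IsKill {κ : Type} (E : TE κ) (D : Finset (κ × ℕ) → List (κ × ℕ) → Set κ) : Prop where
  small : ∀ F l, Small (D F l)
  kill : ∀ F, Bad E F → ∀ v : ℕ → κ × ℕ, (∀ n, (v n).1 ∈ E.N) →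
    (∀ n, (v n).1 ∉ D F ((List.range n).map v)) → ∃ n, ¬ E.P (F ∪ Fw v n)

/-- a notion of closed sets of coordinates with the copying property -/
structure IsClo {κ : Type} (E : TE κ) (D : Finset (κ × ℕ) → List (κ × ℕ) → Set κ)
    (Clo : Set κ → Prop) : Prop where
  ex : ∀ S : Set κ, Small S → ∃ M : Set κ, S ⊆ M ∧ Small M ∧ Clo M
  dep : ∀ M, Clo M → ∀ F : Finset (κ × ℕ), (∀ u ∈ F, u.1 ∈ M) → Dep (E.f F) M
  clD : ∀ M, Clo M → ∀ F : Finset (κ × ℕ), (∀ u ∈ F, u.1 ∈ M) → ∀ l : List (κ × ℕ),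
    (∀ u ∈ l, u.1 ∈ M) → D F l ⊆ M
  copy : ∀ M, Clo M → ∀ (n₀ : ℕ) (w : ℕ → κ × ℕ) (e : ℕ → κ) (c : Code), IsEn E w e →
    HasCode E w e c → Gen E D M n₀ w → ∀ S : Set κ, Small S →
    ∃ (w' : ℕ → κ × ℕ) (e' : ℕ → κ), IsEn E w' e' ∧ HasCode E w' e' c ∧
      (∀ i, e i ∈ M → e' i = e i) ∧ (∀ i, e i ∉ M → e' i ∉ S) ∧ Gen E D S n₀ w'

/-- a play -/
structure IsPlay {κ : Type} (E : TE κ) (Clo : Set κ → Prop) (w : ℕ → κ × ℕ) (A : ℕ → Set κ) :
    Prop where
  small : ∀ n, Small (A n)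
  clo : ∀ n, Clo (A n)
  incr : ∀ n, A n ⊆ A (n + 1)
  memN : ∀ n, (w n).1 ∈ E.N
  out : ∀ n, (w n).1 ∉ A n
  mem : ∀ n, (w n).1 ∈ A (n + 1)
  good : ∀ n, ¬ Bad E (Fw w n)
  closed : ∀ n, ∃ n₁, n < n₁ ∧ Closed E (Fw w n₁) (w n).2

/-! ### shifts -/

/-- soft threshold -/
noncomputable def soft (θ t : ℝ) : ℝ := if θ ≤ t then t - θ else if t ≤ -θ then t + θ else 0

end Pool.Agent.W683.BH
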