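import Pool.Agent.W683.BH.Stmts

/-!
# MP_9e0ccb_an: tasks DEP, SHC
-/

set_option autoImplicit false

namespace Pool.Agent.W683.BH

open Set Filter Topology Cardinal TopologicalSpace
open scoped Classical Uniformity

theorem key_unif {κ : Type} [CompactSpace (U κ)] (f : C(U κ, ℝ)) (ε : ℝ) (hε : 0 < ε) :
    ∃ (A : Finset κ) (δ : ℝ), 0 < δ ∧ ∀ x y : U κ, (∀ γ ∈ A, |x.1 γ - y.1 γ| < δ) →
      |f x - f y| < ε := by
  have h1 : UniformContinuous f := CompactSpace.uniformContinuous_of_continuous f.continuous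
  have h2 : {p : U κ × U κ | dist (f p.1) (f p.2) < ε} ∈ 𝓤 (U κ) :=
    h1 (Metric.dist_mem_uniformity hε)
  rw [uniformity_subtype, Pi.uniformity, Filter.comap_iInf, Filter.mem_iInf] at h2
  obtain ⟨I, hI, V, hV, hs⟩ := h2
  have h3 : ∀ i : I, ∃ δ : ℝ, 0 < δ ∧ ∀ x y : U κ, |x.1 i - y.1 i| < δ → (x, y) ∈ V i := by
    intro i
    have := hV i
    rw [Filter.comap_comap, Filter.mem_comap] at this
    obtain ⟨t, ht, htV⟩ := this
    obtain ⟨δ, hδ, ht2⟩ := Metric.mem_uniformity_dist.1 ht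
    refine ⟨δ, hδ, fun x y hxy => htV ?_⟩
    apply ht2
    rw [Real.dist_eq]
    exact hxy
  choose δ hδ hδV using h3
  haveI : Finite I := hI
  obtain ⟨δ0, hδ0, hmin⟩ : ∃ δ0 : ℝ, 0 < δ0 ∧ ∀ i : I, δ0 ≤ δ i := by
    haveI := Fintype.ofFinite I
    by_cases hne : Nonempty I
    · obtain ⟨i0, h0⟩ := Finite.exists_min δ
      exact ⟨δ i0, hδ i0, h0⟩
    · exact ⟨1, one_pos, fun i => absurd ⟨i⟩ hne⟩
  refine ⟨hI.toFinset, δ0, hδ0, fun x y hxy => ?_⟩
  have h4 : (x, y) ∈ {p : U κ × U κ | dist (f p.1) (f p.2) < ε} := by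
    rw [hs]
    rw [mem_iInter]
    intro i
    exact hδV i x y (lt_of_lt_of_le (hxy i.1 (hI.mem_toFinset.2 i.2)) (hmin i))
  have h5 : dist (f x) (f y) < ε := h4
  rwa [Real.dist_eq] at h5

theorem dep : T_DEP := by
  intro κ _ f
  have h := fun n : ℕ => key_unif f (1 / ((n : ℝ) + 1)) Nat.one_div_pos_of_nat
  choose A δ hδ hA using h
  refine ⟨⋃ n, (A n : Set κ), countable_iUnion (fun n => (A n).countable_toSet), ?_⟩
  intro x y hxy
  have h1 : ∀ n : ℕ, |f x - f y| < 1 / ((n : ℝ) + 1) := by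
    intro n
    apply hA n
    intro γ hγ
    rw [hxy γ (mem_iUnion.2 ⟨n, hγ⟩)]
    simpa using hδ n
  by_contra hne
  have h2 : 0 < |f x - f y| := abs_pos.2 (sub_ne_zero.2 hne)
  obtain ⟨n, hn⟩ := exists_nat_one_div_lt h2
  exact absurd (h1 n) (not_lt.2 hn.le)

theorem shc : T_SHC := by
  intro κ _ g ε hε
  obtain ⟨A, δ, hδ, h⟩ := key_unif g ε hε
  refine ⟨δ / 2, half_pos hδ, fun x y hxy => ?_⟩
  refine (h y x (fun γ _ => lt_of_le_of_lt (hxy γ) (half_lt_self hδ))).le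

end Pool.Agent.W683.BH
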