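import Pool.Agent.W683.BH.Stmts
import Pool.Agent.H136R3.Dom

/-!
# MP_9e0ccb_an: task DOM
-/

set_option autoImplicit false

namespace Pool.Agent.W683.BH

open Set Filter Topology Cardinal TopologicalSpace MeasureTheory
open scoped Classical

/-- real part of a continuous function -/
noncomputable def reC {X : Type} [TopologicalSpace X] (h : C(X, ℂ)) : C(X, ℝ) :=
  ⟨fun x => (h x).re, Complex.continuous_re.comp h.continuous⟩

/-- imaginary part of a continuous function -/
noncomputable def imC {X : Type} [TopologicalSpace X] (h : C(X, ℂ)) : C(X, ℝ) :=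
  ⟨fun x => (h x).im, Complex.continuous_im.comp h.continuous⟩

/-- a real function as a complex one -/
noncomputable def ofC {X : Type} [TopologicalSpace X] (h : C(X, ℝ)) : C(X, ℂ) :=
  ⟨fun x => (h x : ℂ), Complex.continuous_ofReal.comp h.continuous⟩

/-- complexification of a functional, as a linear map -/
noncomputable def cpxL {X : Type} [TopologicalSpace X] [CompactSpace X] (φ : C(X, ℝ) →L[ℝ] ℝ) :
    C(X, ℂ) →ₗ[ℂ] ℂ where
  toFun := fun h => (φ (reC h) : ℂ) + (φ (imC h) : ℂ) * Complex.I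
  map_add' := by
    intro f g
    have h1 : reC (f + g) = reC f + reC g := by ext x; simp [reC]
    have h2 : imC (f + g) = imC f + imC g := by ext x; simp [imC]
    rw [h1, h2, map_add, map_add]
    push_cast
    ring
  map_smul' := by
    intro c f
    have h1 : reC (c • f) = c.re • reC f - c.im • imC f := by
      ext x; simp [reC, imC]
    have h2 : imC (c • f) = c.re • imC f + c.im • reC f := by
      ext x; simp [reC, imC]
    rw [h1, h2, map_add, map_sub, map_smul, map_smul, map_smul, map_smul]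
    apply Complex.ext
    · simp
    · simp

theorem cpx_bound {X : Type} [TopologicalSpace X] [CompactSpace X] (φ : C(X, ℝ) →L[ℝ] ℝ)
    (h : C(X, ℂ)) : ‖cpxL φ h‖ ≤ ‖φ‖ * ‖h‖ := by
  obtain ⟨u, hu, hu2⟩ : ∃ u : ℂ, ‖u‖ = 1 ∧ u * cpxL φ h = ((‖cpxL φ h‖ : ℝ) : ℂ) := by
    by_cases h0 : cpxL φ h = 0
    · exact ⟨1, by simp, by rw [h0]; simp⟩
    · refine ⟨(starRingEnd ℂ) (cpxL φ h) / ‖cpxL φ h‖, ?_, ?_⟩
      · rw [norm_div, Complex.norm_conj, Complex.norm_real, norm_norm, div_self]
        exact norm_ne_zero_iff.2 h0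
      · rw [div_mul_eq_mul_div, mul_comm, Complex.mul_conj, Complex.normSq_eq_norm_sq]
        have : (‖cpxL φ h‖ : ℂ) ≠ 0 := by exact_mod_cast norm_ne_zero_iff.2 h0
        field_simp
        push_cast
        ring
  have h1 : cpxL φ (u • h) = ((‖cpxL φ h‖ : ℝ) : ℂ) := by
    rw [map_smul, smul_eq_mul, hu2]
  have h2 : (cpxL φ (u • h)).re = φ (reC (u • h)) := by
    change ((φ (reC (u • h)) : ℂ) + (φ (imC (u • h)) : ℂ) * Complex.I).re = _
    simp
  rw [h1, Complex.ofReal_re] at h2
  rw [h2]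
  refine (le_abs_self _).trans ((φ.le_opNorm _).trans ?_)
  apply mul_le_mul_of_nonneg_left _ φ.opNorm_nonneg
  rw [ContinuousMap.norm_le _ (norm_nonneg _)]
  intro x
  have h3 : ‖(u • h) x‖ ≤ ‖h‖ := by
    rw [ContinuousMap.smul_apply, norm_smul, hu, one_mul]
    exact ContinuousMap.norm_coe_le_norm h x
  refine le_trans ?_ h3
  exact Complex.abs_re_le_norm _

theorem dom : T_DOM := by
  intro X _ _ _ _ _ φ
  obtain ⟨μ, hμ, hm, hd⟩ := Pool.Agent.H136R3.exists_dominating
    (LinearMap.mkContinuous (cpxL φ) ‖φ‖ (cpx_bound φ))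
  refine ⟨μ, hμ, ?_, ?_⟩
  · have h1 : μ.real univ ≤ ‖φ‖ :=
      hm.trans (LinearMap.mkContinuous_norm_le _ φ.opNorm_nonneg _)
    have h2 : μ univ = ENNReal.ofReal (μ.real univ) := by
      rw [Measure.real, ENNReal.ofReal_toReal (measure_ne_top _ _)]
    rw [h2]
    exact ENNReal.ofReal_le_ofReal h1
  · intro f
    have h1 := hd (ofC f)
    have h2 : (LinearMap.mkContinuous (cpxL φ) ‖φ‖ (cpx_bound φ)) (ofC f) = (φ f : ℂ) := by
      change (φ (reC (ofC f)) : ℂ) + (φ (imC (ofC f)) : ℂ) * Complex.I = _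
      have h3 : reC (ofC f) = f := by ext x; simp [reC, ofC]
      have h4 : imC (ofC f) = 0 := by ext x; simp [imC, ofC]
      rw [h3, h4]
      simp
    rw [h2, Complex.norm_real] at h1
    refine le_trans h1 (le_of_eq ?_)
    apply integral_congr_ae
    filter_upwards with x
    change ‖((f x : ℝ) : ℂ)‖ = _
    rw [Complex.norm_real, Real.norm_eq_abs]

end Pool.Agent.W683.BH
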