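import Pool.Agent.W683.BH.Stmts

/-!
# MP_9e0ccb_an: auxiliary lemmas on indicators and configurations
-/

set_option autoImplicit false

namespace Pool.Agent.W683.BH

open Set Filter Topology Cardinal TopologicalSpace
open scoped Classical

theorem ind_apply {L : Type} [TopologicalSpace L] (V : Clopens L) (y : L) :
    ind V y = if y ∈ V then 1 else 0 := rfl

theorem ind_mem {L : Type} [TopologicalSpace L] {V : Clopens L} {y : L} (h : y ∈ V) :
    ind V y = 1 := by rw [ind_apply, if_pos h]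

theorem ind_not {L : Type} [TopologicalSpace L] {V : Clopens L} {y : L} (h : y ∉ V) :
    ind V y = 0 := by rw [ind_apply, if_neg h]

theorem norm_ind_le {L : Type} [TopologicalSpace L] [CompactSpace L] (V : Clopens L) :
    ‖ind V‖ ≤ 1 := by
  rw [ContinuousMap.norm_le _ zero_le_one]
  intro y
  rw [ind_apply]
  split_ifs <;> simp

/-- signed sums of indicators of pairwise disjoint clopen sets have norm at most one -/
theorem norm_sum_ind_le {L ι : Type} [TopologicalSpace L] [CompactSpace L] (A : Finset ι)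
    (V : ι → Clopens L) (hd : ∀ i ∈ A, ∀ j ∈ A, i ≠ j → ∀ y, y ∈ V i → y ∉ V j) (ε : ι → ℝ)
    (hε : ∀ i, |ε i| ≤ 1) : ‖∑ i ∈ A, ε i • ind (V i)‖ ≤ 1 := by
  rw [ContinuousMap.norm_le _ zero_le_one]
  intro y
  rw [ContinuousMap.sum_apply]
  simp only [ContinuousMap.smul_apply, smul_eq_mul]
  by_cases h : ∃ i ∈ A, y ∈ V i
  · obtain ⟨i, hi, hy⟩ := h
    rw [Finset.sum_eq_single_of_mem i hi]
    · rw [ind_mem hy, mul_one]; exact hε i
    · intro j hj hji
      rw [ind_not (hd i hi j hj (Ne.symm hji) y hy), mul_zero]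
  · push Not at h
    rw [Finset.sum_eq_zero]
    · simp
    · intro i hi
      rw [ind_not (h i hi), mul_zero]

/-- bounded functionals are absolutely summable over disjoint clopen sets -/
theorem sum_abs_le {L ι : Type} [TopologicalSpace L] [CompactSpace L] (A : Finset ι)
    (V : ι → Clopens L) (hd : ∀ i ∈ A, ∀ j ∈ A, i ≠ j → ∀ y, y ∈ V i → y ∉ V j)
    (φ : C(L, ℝ) →L[ℝ] ℝ) : ∑ i ∈ A, |φ (ind (V i))| ≤ ‖φ‖ := by
  have h1 : ∑ i ∈ A, |φ (ind (V i))| =
      φ (∑ i ∈ A, (SignType.sign (φ (ind (V i))) : ℝ) • ind (V i)) := by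
    rw [map_sum]
    apply Finset.sum_congr rfl
    intro i _
    rw [map_smul, smul_eq_mul, sign_mul_self]
  rw [h1]
  have h2 := norm_sum_ind_le A V hd (fun i => (SignType.sign (φ (ind (V i))) : ℝ)) (fun i => by
    rcases lt_trichotomy (φ (ind (V i))) 0 with h | h | h
    · simp [sign_neg h]
    · simp [h]
    · simp [sign_pos h])
  calc φ (∑ i ∈ A, (SignType.sign (φ (ind (V i))) : ℝ) • ind (V i)) ≤ _ := le_abs_self _
    _ ≤ ‖φ‖ * ‖∑ i ∈ A, (SignType.sign (φ (ind (V i))) : ℝ) • ind (V i)‖ := φ.le_opNorm _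
    _ ≤ ‖φ‖ * 1 := mul_le_mul_of_nonneg_left h2 φ.opNorm_nonneg
    _ = ‖φ‖ := mul_one _

/-- evaluation of an operator into `C(X)` at a point -/
noncomputable def evT {Y X : Type} [TopologicalSpace Y] [CompactSpace Y] [TopologicalSpace X]
    [CompactSpace X] (T : C(Y, ℝ) →L[ℝ] C(X, ℝ)) (x : X) : C(Y, ℝ) →L[ℝ] ℝ :=
  (ContinuousMap.evalCLM ℝ x).comp T

theorem evT_apply {Y X : Type} [TopologicalSpace Y] [CompactSpace Y] [TopologicalSpace X]
    [CompactSpace X] (T : C(Y, ℝ) →L[ℝ] C(X, ℝ)) (x : X) (f : C(Y, ℝ)) :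
    evT T x f = T f x := rfl

theorem norm_evT_le {Y X : Type} [TopologicalSpace Y] [CompactSpace Y] [TopologicalSpace X]
    [CompactSpace X] (T : C(Y, ℝ) →L[ℝ] C(X, ℝ)) (x : X) : ‖evT T x‖ ≤ ‖T‖ := by
  apply ContinuousLinearMap.opNorm_le_bound _ T.opNorm_nonneg
  intro f
  rw [evT_apply]
  exact (ContinuousMap.norm_coe_le_norm (T f) x).trans (T.le_opNorm f)

theorem VF_union {κ L : Type} [TopologicalSpace L] (V : κ → ℕ → Clopens L)
    (F G : Finset (κ × ℕ)) : VF V (F ∪ G) = VF V F ⊓ VF V G := by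
  unfold VF
  exact Finset.inf_union

theorem VF_anti {κ L : Type} [TopologicalSpace L] (V : κ → ℕ → Clopens L)
    {F G : Finset (κ × ℕ)} (h : F ⊆ G) : VF V G ≤ VF V F := by
  unfold VF
  exact Finset.inf_mono h

theorem mem_finf {L ι : Type} [TopologicalSpace L] (A : Finset ι) (W : ι → Clopens L) (y : L) :
    y ∈ A.inf W ↔ ∀ i ∈ A, y ∈ W i := by
  induction A using Finset.induction with
  | empty =>
    simp only [Finset.inf_empty, Finset.notMem_empty, false_imp_iff, implies_true, iff_true]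
    exact trivial
  | insert a s ha ih =>
    rw [Finset.inf_insert]
    simp only [Finset.mem_insert, forall_eq_or_imp]
    rw [← ih]
    exact Iff.rfl

theorem mem_VF {κ L : Type} [TopologicalSpace L] (V : κ → ℕ → Clopens L)
    (F : Finset (κ × ℕ)) (y : L) : y ∈ VF V F ↔ ∀ u ∈ F, y ∈ V u.1 u.2 := by
  unfold VF
  exact mem_finf F _ y

theorem VF_atm {κ L : Type} [TopologicalSpace L] (V : κ → ℕ → Clopens L) {r : ℕ}
    (α : Fin r → κ) (J : Finset (Fin r)) :
    VF V (atm α J) = J.inf (fun q => V (α q) q) := by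
  unfold VF atm
  rw [Finset.inf_image]
  rfl

theorem ne_bot_iff {L : Type} [TopologicalSpace L] (W : Clopens L) : W ≠ ⊥ ↔ ∃ y, y ∈ W := by
  constructor
  · intro h
    by_contra h0
    push Not at h0
    apply h
    ext y
    simp only [SetLike.mem_coe]
    constructor
    · intro hy; exact absurd hy (h0 y)
    · intro hy; exact absurd hy (Set.notMem_empty y)
  · rintro ⟨y, hy⟩ h
    rw [h] at hy
    exact absurd hy (Set.notMem_empty y)

theorem ind_sdiff {L : Type} [TopologicalSpace L] {V W : Clopens L} (h : W ≤ V) :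
    ind (V \ W) = ind V - ind W := by
  ext y
  rw [ContinuousMap.sub_apply, ind_apply, ind_apply, ind_apply]
  have h1 : y ∈ V \ W ↔ y ∈ V ∧ y ∉ W := Iff.rfl
  by_cases hv : y ∈ V
  · by_cases hw : y ∈ W
    · rw [if_neg (by rw [h1]; tauto), if_pos hv, if_pos hw]; ring
    · rw [if_pos (by rw [h1]; tauto), if_pos hv, if_neg hw]; ring
  · have hw : y ∉ W := fun hw => hv (h hw)
    rw [if_neg (by rw [h1]; tauto), if_neg hv, if_neg hw]; ring

theorem Fw_mono {κ : Type} (w : ℕ → κ × ℕ) : Monotone (Fw w) := by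
  intro a b h
  unfold Fw
  exact Finset.image_subset_image (Finset.range_mono h)

theorem mem_Fw {κ : Type} (w : ℕ → κ × ℕ) (n : ℕ) (u : κ × ℕ) :
    u ∈ Fw w n ↔ ∃ i < n, w i = u := by
  unfold Fw
  rw [Finset.mem_image]
  simp only [Finset.mem_range]

theorem Dep.mono {κ : Type} {f : C(U κ, ℝ)} {C C' : Set κ} (h : Dep f C) (hC : C ⊆ C') :
    Dep f C' := fun x y hxy => h x y (fun γ hγ => hxy γ (hC hγ))

theorem soft_zero (t : ℝ) : soft 0 t = t := by
  unfold soft
  split_ifs with h1 h2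
  · ring
  · ring
  · exfalso; push Not at h1 h2; linarith

theorem abs_soft_sub_le (θ t : ℝ) (hθ : 0 ≤ θ) : |soft θ t - t| ≤ θ := by
  unfold soft
  split_ifs with h1 h2
  · rw [show t - θ - t = -θ by ring, abs_neg, abs_of_nonneg hθ]
  · rw [show t + θ - t = θ by ring, abs_of_nonneg hθ]
  · push Not at h1 h2
    rw [abs_le]; constructor <;> linarith

end Pool.Agent.W683.BH
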