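import Pool.Agent.W683.BH.Stmts

/-!
# MP_9e0ccb_an: tasks HOM, SEP, BK
-/

set_option autoImplicit false

namespace Pool.Agent.W683.BH

open Set Filter Topology Cardinal TopologicalSpace
open scoped Classical Uniformity

theorem norm_rpow_two (t : ℝ) : ‖t‖ ^ (2 : ENNReal).toReal = t ^ 2 := by
  rw [ENNReal.toReal_ofNat, Real.rpow_ofNat, Real.norm_eq_abs, sq_abs]

theorem ub_memlp {κ : Type} (x : U κ) : Memℓp x.1 2 := by
  apply memℓp_gen' (C := 1)
  intro s
  simp only [norm_rpow_two]
  exact x.2 s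

theorem ub_norm {κ : Type} (x : U κ) : ‖(⟨x.1, ub_memlp x⟩ : lp (fun _ : κ => ℝ) 2)‖ ≤ 1 := by
  apply lp.norm_le_of_forall_sum_le (by norm_num) zero_le_one
  intro s
  simp only [norm_rpow_two, Real.one_rpow]
  exact x.2 s

theorem ball_ub {κ : Type} (f : lp (fun _ : κ => ℝ) 2) (hf : ‖f‖ ≤ 1) :
    (fun c => f c) ∈ UB κ := by
  intro A
  have h1 := lp.sum_rpow_le_norm_rpow (p := 2) (by norm_num) f A
  simp only [norm_rpow_two] at h1
  refine h1.trans ?_
  rw [ENNReal.toReal_ofNat, Real.rpow_ofNat]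
  exact pow_le_one₀ (norm_nonneg _) hf

theorem functional_cont {κ : Type} (f : StrongDual ℝ (lp (fun _ : κ => ℝ) 2)) :
    Continuous (fun x : U κ => f ⟨x.1, ub_memlp x⟩) := by
  apply continuous_of_uniform_approx_of_continuous
  intro u hu
  obtain ⟨ε, hε, hεu⟩ := Metric.mem_uniformity_dist.1 hu
  let a : lp (fun _ : κ => ℝ) 2 := (InnerProductSpace.toDual ℝ (lp (fun _ : κ => ℝ) 2)).symm f
  have ha : ∀ z, inner ℝ a z = f z := fun z => InnerProductSpace.toDual_symm_apply
  have h1 : HasSum (fun i => lp.single 2 i (a i)) a := lp.hasSum_single (by norm_num) a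
  obtain ⟨A, hA⟩ := (Metric.tendsto_nhds.1 h1 ε hε).exists
  refine ⟨fun x => ∑ c ∈ A, a c * x.1 c, ?_, ?_⟩
  · apply continuous_finsetSum
    intro c _
    exact continuous_const.mul ((continuous_apply c).comp continuous_subtype_val)
  · intro x
    apply hεu
    change dist (f ⟨x.1, ub_memlp x⟩) (∑ c ∈ A, a c * x.1 c) < ε
    have h2 : ∑ c ∈ A, a c * x.1 c =
        inner ℝ (∑ c ∈ A, lp.single 2 c (a c)) (⟨x.1, ub_memlp x⟩ : lp (fun _ : κ => ℝ) 2) := by
      rw [sum_inner]
      apply Finset.sum_congr rfl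
      intro c _
      rw [lp.inner_single_left]
      change a c * x.1 c = x.1 c * (starRingEnd ℝ) (a c)
      rw [mul_comm]
      rfl
    rw [h2, ← ha, dist_eq_norm, ← inner_sub_left]
    refine lt_of_le_of_lt (norm_inner_le_norm _ _) ?_
    have h3 : ‖a - ∑ c ∈ A, lp.single 2 c (a c)‖ < ε := by
      rw [← dist_eq_norm, dist_comm]
      exact hA
    have h4 := ub_norm x
    have h5 := norm_nonneg (a - ∑ c ∈ A, lp.single 2 c (a c))
    calc _ ≤ ‖a - ∑ c ∈ A, lp.single 2 c (a c)‖ * 1 :=
          mul_le_mul_of_nonneg_left h4 h5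
      _ < ε := by rw [mul_one]; exact h3

theorem hom : T_HOM := by
  intro κ
  let H := lp (fun _ : κ => ℝ) 2
  have hmem : ∀ y : ↥(toWeakSpace ℝ (lp (fun _ : κ => ℝ) 2) ''
      Metric.closedBall (0 : lp (fun _ : κ => ℝ) 2) 1),
      ‖(toWeakSpace ℝ (lp (fun _ : κ => ℝ) 2)).symm y.1‖ ≤ 1 := by
    rintro ⟨_, f, hf, rfl⟩
    rw [LinearEquiv.symm_apply_apply]
    exact mem_closedBall_zero_iff.1 hf
  refine ⟨{
    toFun := fun y => ⟨fun c => ((toWeakSpace ℝ (lp (fun _ : κ => ℝ) 2)).symm y.1 :
      lp (fun _ : κ => ℝ) 2) c, ball_ub _ (hmem y)⟩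
    invFun := fun x => ⟨toWeakSpace ℝ (lp (fun _ : κ => ℝ) 2) ⟨x.1, ub_memlp x⟩, _,
      mem_closedBall_zero_iff.2 (ub_norm x), rfl⟩
    left_inv := ?_
    right_inv := ?_
    continuous_toFun := ?_
    continuous_invFun := ?_ }⟩
  · intro y
    apply Subtype.ext
    change toWeakSpace ℝ (lp (fun _ : κ => ℝ) 2) ⟨fun c =>
      ((toWeakSpace ℝ (lp (fun _ : κ => ℝ) 2)).symm y.1 : lp (fun _ : κ => ℝ) 2) c, _⟩ = y.1
    rw [← LinearEquiv.eq_symm_apply]
  · intro x
    rfl
  · apply Continuous.subtype_mk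
    apply continuous_pi
    intro c
    have h1 := WeakBilin.eval_continuous (topDualPairing ℝ (lp (fun _ : κ => ℝ) 2)).flip
      (lp.evalCLM ℝ (fun _ : κ => ℝ) 2 c)
    exact h1.comp continuous_subtype_val
  · apply Continuous.subtype_mk
    apply WeakBilin.continuous_of_continuous_eval
    intro f
    exact functional_cont f

theorem sep : T_SEP := by
  intro κ hκ hsep
  let e : κ → lp (fun _ : κ => ℝ) 2 := fun c => lp.single 2 c (1 : ℝ)
  have hd : ∀ c d, c ≠ d → 1 ≤ dist (e c) (e d) := by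
    intro c d hcd
    rw [dist_eq_norm]
    have h1 := lp.norm_apply_le_norm (p := 2) (by norm_num) (e c - e d) c
    refine le_trans ?_ h1
    have h2 : (e c - e d) c = 1 := by
      rw [lp.coeFn_sub, Pi.sub_apply]
      change (lp.single 2 c (1 : ℝ) : lp (fun _ : κ => ℝ) 2) c -
        (lp.single 2 d (1 : ℝ) : lp (fun _ : κ => ℝ) 2) c = 1
      rw [lp.single_apply_self, lp.single_apply_ne _ _ _ hcd, sub_zero]
    rw [h2]
    simp
  have h1 : (univ : Set κ).Countable := by
    apply Set.PairwiseDisjoint.countable_of_isOpen (s := fun c => Metric.ball (e c) (1 / 2))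
    · intro c _ d _ hcd
      rw [Function.onFun, Set.disjoint_left]
      intro z hz hz'
      have h2 := hd c d hcd
      have h3 := dist_triangle_right (e c) (e d) z
      rw [Metric.mem_ball, dist_comm] at hz hz'
      linarith
    · intro c _
      exact Metric.isOpen_ball
    · intro c _
      exact ⟨e c, Metric.mem_ball_self (by norm_num)⟩
  exact hκ.not_countable (Set.countable_univ_iff.1 h1)

/-- signed square root -/
noncomputable def sr (t : ℝ) : ℝ := √(max t 0) - √(max (-t) 0)

theorem sr_pos {t : ℝ} (h : 0 ≤ t) : sr t = √t := by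
  unfold sr
  rw [max_eq_left h, max_eq_right (by linarith), Real.sqrt_zero, sub_zero]

theorem sr_neg {t : ℝ} (h : t ≤ 0) : sr t = -√(-t) := by
  unfold sr
  rw [max_eq_right h, max_eq_left (by linarith), Real.sqrt_zero, zero_sub]

theorem sr_cont : Continuous sr :=
  (Real.continuous_sqrt.comp (continuous_id.max continuous_const)).sub
    (Real.continuous_sqrt.comp (continuous_neg.max continuous_const))

theorem sr_sq (t : ℝ) : sr t ^ 2 = |t| := by
  rcases le_total 0 t with h | h
  · rw [sr_pos h, Real.sq_sqrt h, abs_of_nonneg h]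
  · rw [sr_neg h, neg_sq, Real.sq_sqrt (by linarith), abs_of_nonpos h]

theorem sr_inv1 (t : ℝ) : sr t * |sr t| = t := by
  rcases le_total 0 t with h | h
  · rw [sr_pos h, abs_of_nonneg (Real.sqrt_nonneg _), Real.mul_self_sqrt h]
  · rw [sr_neg h, abs_neg, abs_of_nonneg (Real.sqrt_nonneg _), neg_mul,
      Real.mul_self_sqrt (by linarith)]
    ring

theorem sr_inv2 (y : ℝ) : sr (y * |y|) = y := by
  rcases le_total 0 y with h | h
  · rw [abs_of_nonneg h, sr_pos (mul_nonneg h h), Real.sqrt_mul_self h]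
  · rw [abs_of_nonpos h, sr_neg (by nlinarith), show -(y * -y) = (-y) * (-y) by ring,
      Real.sqrt_mul_self (by linarith)]
    ring

theorem bk : T_BK := by
  intro κ
  refine ⟨{
    toFun := fun x => ⟨fun c => sr (x.1 c), fun A => by
      simp only [sr_sq]
      exact x.2 A⟩
    invFun := fun y => ⟨fun c => y.1 c * |y.1 c|, fun A => by
      have h1 : ∀ c ∈ A, abs (y.1 c * |y.1 c|) = y.1 c ^ 2 := by
        intro c _
        rw [abs_mul, abs_abs, ← sq, sq_abs]
      rw [Finset.sum_congr rfl h1]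
      exact y.2 A⟩
    left_inv := ?_
    right_inv := ?_
    continuous_toFun := ?_
    continuous_invFun := ?_ }⟩
  · intro x
    apply Subtype.ext
    funext c
    exact sr_inv1 _
  · intro y
    apply Subtype.ext
    funext c
    exact sr_inv2 _
  · apply Continuous.subtype_mk
    apply continuous_pi
    intro c
    exact sr_cont.comp ((continuous_apply c).comp continuous_subtype_val)
  · apply Continuous.subtype_mk
    apply continuous_pi
    intro c
    have h : Continuous (fun y : U κ => y.1 c) :=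
      (continuous_apply c).comp continuous_subtype_val
    exact h.mul h.abs

end Pool.Agent.W683.BH
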