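import Pool.Agent.W683.BH.Help

/-!
# MP_9e0ccb_an: task KILL
-/

set_option autoImplicit false

namespace Pool.Agent.W683.BH

open Set Filter Topology Cardinal TopologicalSpace
open scoped Classical

theorem small_empty {κ : Type} : Small (∅ : Set κ) := by
  unfold Small
  simp

theorem map_range_cons {κ : Type} (v : ℕ → κ × ℕ) (n : ℕ) :
    (List.range (n + 1)).map v = v 0 :: (List.range n).map (fun i => v (i + 1)) := by
  rw [List.range_succ_eq_map, List.map_cons, List.map_map]
  rfl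

theorem Fw_cons {κ : Type} (v : ℕ → κ × ℕ) (n : ℕ) (F : Finset (κ × ℕ)) :
    insert (v 0) F ∪ Fw (fun i => v (i + 1)) n = F ∪ Fw v (n + 1) := by
  ext u
  simp only [Finset.mem_union, Finset.mem_insert, mem_Fw]
  constructor
  · rintro ((h | h) | ⟨i, hi, h⟩)
    · exact Or.inr ⟨0, by omega, h.symm⟩
    · exact Or.inl h
    · exact Or.inr ⟨i + 1, by omega, h⟩
  · rintro (h | ⟨i, hi, h⟩)
    · exact Or.inl (Or.inr h)
    · rcases i with _ | i
      · exact Or.inl (Or.inl h.symm)
      · exact Or.inr ⟨i, by omega, h⟩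

theorem kill_aux {κ : Type} (E : TE κ) (F : Finset (κ × ℕ)) (hF : Bad E F) :
    ∃ D : List (κ × ℕ) → Set κ, (∀ l, Small (D l)) ∧ ∀ v : ℕ → κ × ℕ, (∀ n, (v n).1 ∈ E.N) →
      (∀ n, (v n).1 ∉ D ((List.range n).map v)) → ∃ n, ¬ E.P (F ∪ Fw v n) := by
  induction hF with
  | emp F h =>
    refine ⟨fun _ => ∅, fun _ => small_empty, fun v _ _ => ⟨0, ?_⟩⟩
    have : F ∪ Fw v 0 = F := by
      unfold Fw
      simp
    rw [this]
    exact h
  | step F S hS h ih =>
    choose D hD hD' using ih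
    refine ⟨fun l => match l with
      | [] => S
      | u :: l => if hu : u.1 ∈ E.N ∧ u.1 ∉ S then D u hu.1 hu.2 l else ∅, ?_, ?_⟩
    · intro l
      rcases l with _ | ⟨u, l⟩
      · exact hS
      · dsimp only
        split_ifs with hu
        · exact hD u _ _ l
        · exact small_empty
    · intro v hvN hv
      have h0 : (v 0).1 ∉ S := hv 0
      obtain ⟨n, hn⟩ := hD' (v 0) (hvN 0) h0 (fun i => v (i + 1)) (fun n => hvN _) (by
        intro n
        have h1 := hv (n + 1)
        rw [map_range_cons] at h1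
        dsimp only at h1
        rw [dif_pos ⟨hvN 0, h0⟩] at h1
        exact h1)
      refine ⟨n + 1, ?_⟩
      rw [← Fw_cons]
      exact hn

theorem kill : T_KILL := by
  intro κ E
  have h : ∀ F : Finset (κ × ℕ), ∃ D : List (κ × ℕ) → Set κ, (∀ l, Small (D l)) ∧
      (Bad E F → ∀ v : ℕ → κ × ℕ, (∀ n, (v n).1 ∈ E.N) →
      (∀ n, (v n).1 ∉ D ((List.range n).map v)) → ∃ n, ¬ E.P (F ∪ Fw v n)) := by
    intro F
    by_cases hF : Bad E F
    · obtain ⟨D, h1, h2⟩ := kill_aux E F hF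
      exact ⟨D, h1, fun _ => h2⟩
    · exact ⟨fun _ => ∅, fun _ => small_empty, fun h => absurd h hF⟩
  choose D hD hD' using h
  exact ⟨D, ⟨hD, fun F hF => hD' F hF⟩⟩

end Pool.Agent.W683.BH
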