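import Pool.Agent.W683.BH.ST1

/-!
# MP_9e0ccb_an: task ST2
-/

set_option autoImplicit false

namespace Pool.Agent.W683.BH

open Set Filter Topology Cardinal TopologicalSpace
open scoped Classical

theorem exists_good {κ : Type} [Infinite κ] (Q : (ℕ → κ) → ℕ → Prop)
    (hB : ∀ γ : ℕ → κ, Function.Injective γ → ∃ n, Q γ n) :
    ∃ (n m : ℕ) (γ0 : ℕ → κ), n ≤ m ∧ Function.Injective γ0 ∧
      ∀ γ' : ℕ → κ, Function.Injective γ' → (∀ i < m, γ' i = γ0 i) → ∀ m' : ℕ,
        ∃ γ : ℕ → κ, Function.Injective γ ∧ (∀ i < m', γ i = γ' i) ∧ Q γ n := by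
  by_contra hcon
  have hcon' : ∀ (n m : ℕ) (γ0 : ℕ → κ), n ≤ m → Function.Injective γ0 →
      ∃ γ' : ℕ → κ, Function.Injective γ' ∧ (∀ i < m, γ' i = γ0 i) ∧ ∃ m' : ℕ,
        ∀ γ : ℕ → κ, Function.Injective γ → (∀ i < m', γ i = γ' i) → ¬ Q γ n := by
    intro n m γ0 hnm hγ0
    by_contra hc
    apply hcon
    refine ⟨n, m, γ0, hnm, hγ0, fun γ' hγ' hag m' => ?_⟩
    by_contra hc2
    apply hc
    refine ⟨γ', hγ', hag, m', fun γ hγ hγγ' hQ => hc2 ⟨γ, hγ, hγγ', hQ⟩⟩
  choose! nx hnx1 hnx2 mx hmx using hcon'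
  let γ00 : ℕ → κ := Infinite.natEmbedding κ
  have hγ00 : Function.Injective γ00 := (Infinite.natEmbedding κ).injective
  let σ : ℕ → (ℕ → κ) × ℕ := fun j => Nat.rec (γ00, 0)
    (fun j p => (nx j (max p.2 j) p.1, max (max p.2 j + 1) (mx j (max p.2 j) p.1))) j
  have hσ : ∀ j, σ (j + 1) = (nx j (max (σ j).2 j) (σ j).1,
      max (max (σ j).2 j + 1) (mx j (max (σ j).2 j) (σ j).1)) := fun j => rfl
  have hinj : ∀ j, Function.Injective (σ j).1 := by
    intro j
    induction j with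
    | zero => exact hγ00
    | succ j ih =>
      rw [hσ]
      exact hnx1 j (max (σ j).2 j) (σ j).1 (le_max_right _ _) ih
  have hag : ∀ j, ∀ i < (σ j).2, (σ (j + 1)).1 i = (σ j).1 i := by
    intro j i hi
    rw [hσ]
    exact hnx2 j (max (σ j).2 j) (σ j).1 (le_max_right _ _) (hinj j) i
      (lt_of_lt_of_le hi (le_max_left _ _))
  have hmono : ∀ j, (σ j).2 ≤ (σ (j + 1)).2 := by
    intro j
    rw [hσ]
    change (σ j).2 ≤ max (max (σ j).2 j + 1) _
    exact le_trans (le_trans (le_max_left _ _) (Nat.le_succ _)) (le_max_left _ _)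
  have hbig : ∀ j, j + 1 ≤ (σ (j + 1)).2 := by
    intro j
    rw [hσ]
    change j + 1 ≤ max (max (σ j).2 j + 1) _
    exact le_trans (Nat.succ_le_succ (le_max_right _ _)) (le_max_left _ _)
  have hmono' : Monotone (fun j => (σ j).2) := monotone_nat_of_le_succ hmono
  have hag' : ∀ j d, ∀ i < (σ j).2, (σ (j + d)).1 i = (σ j).1 i := by
    intro j d
    induction d with
    | zero => intro i _; rfl
    | succ d ih =>
      intro i hi
      have h1 : (σ j).2 ≤ (σ (j + d)).2 := hmono' (Nat.le_add_right _ _)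
      rw [← add_assoc, hag (j + d) i (lt_of_lt_of_le hi h1), ih i hi]
  let δ : ℕ → κ := fun i => (σ (i + 1)).1 i
  have hδ : ∀ j, ∀ i < (σ j).2, δ i = (σ j).1 i := by
    intro j i hi
    have hi1 : i < (σ (i + 1)).2 := lt_of_lt_of_le (Nat.lt_succ_self i) (hbig i)
    rcases le_total j (i + 1) with h | h
    · obtain ⟨d, hd⟩ := Nat.exists_eq_add_of_le h
      change (σ (i + 1)).1 i = _
      rw [hd]
      exact hag' j d i hi
    · obtain ⟨d, hd⟩ := Nat.exists_eq_add_of_le h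
      change (σ (i + 1)).1 i = _
      rw [hd]
      exact (hag' (i + 1) d i hi1).symm
  have hδi : Function.Injective δ := by
    intro a b hab
    have ha : a < (σ (max a b + 1)).2 :=
      lt_of_lt_of_le (Nat.lt_succ_of_le (le_max_left a b)) (hbig (max a b))
    have hb : b < (σ (max a b + 1)).2 :=
      lt_of_lt_of_le (Nat.lt_succ_of_le (le_max_right a b)) (hbig (max a b))
    rw [hδ (max a b + 1) a ha, hδ (max a b + 1) b hb] at hab
    exact hinj (max a b + 1) hab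
  obtain ⟨n, hn⟩ := hB δ hδi
  refine hmx n (max (σ n).2 n) (σ n).1 (le_max_right _ _) (hinj n) δ hδi ?_ hn
  intro i hi
  have h1 : i < (σ (n + 1)).2 := by
    rw [hσ]
    exact lt_of_lt_of_le hi (le_max_right _ _)
  rw [hδ (n + 1) i h1, hσ]

/-- few coordinates are large -/
theorem card_large {κ : Type} (x : U κ) (c : ℝ) (hc : 0 < c) (A : Finset κ)
    (h : ∀ γ ∈ A, c / 2 < |x.1 γ|) : (A.card : ℝ) ≤ 4 / c ^ 2 := by
  have h1 := x.2 A
  have h2 : ∑ _γ ∈ A, (c / 2) ^ 2 ≤ ∑ γ ∈ A, x.1 γ ^ 2 := by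
    apply Finset.sum_le_sum
    intro γ hγ
    rw [← sq_abs (x.1 γ)]
    have := h γ hγ
    exact pow_le_pow_left₀ (by positivity) this.le 2
  rw [Finset.sum_const, nsmul_eq_mul] at h2
  rw [le_div_iff₀ (by positivity)]
  nlinarith

theorem hb_congr {κ : Type} (γ γ' : ℕ → κ) (n : ℕ) (h : ∀ i < n, γ i = γ' i) :
    hb γ n = hb γ' n := by
  ext x
  rw [hb_apply, hb_apply]
  apply Finset.prod_congr rfl
  intro i hi
  rw [h i (Finset.mem_range.1 hi)]

theorem order_bound {κ L : Type} [TopologicalSpace L] [CompactSpace L] [CompactSpace (U κ)]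
    (I : Iso κ L) (h : C(U κ, ℝ)) (h0 : ∀ x, 0 ≤ h x) (h1 : ∀ x, h x ≤ 1) (k : ℕ) (y : L)
    (A : Finset κ) : ∑ c ∈ A, |I.S (h * ph k c) y| ≤ I.M * (4 / cc k ^ 2) := by
  have hM := I.hM
  have hM0 : 0 < I.M := by linarith
  have e1 : ∑ c ∈ A, |I.S (h * ph k c) y| =
      I.S (∑ c ∈ A, (SignType.sign (I.S (h * ph k c) y) : ℝ) • (h * ph k c)) y := by
    rw [map_sum, ContinuousMap.sum_apply]
    apply Finset.sum_congr rfl
    intro c _
    rw [map_smul, ContinuousMap.smul_apply, smul_eq_mul, sign_mul_self]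
  rw [e1]
  refine (le_abs_self _).trans ?_
  rw [← Real.norm_eq_abs]
  refine (ContinuousMap.norm_coe_le_norm _ y).trans ((I.S.le_opNorm _).trans ?_)
  have hc4 : 0 ≤ 4 / cc k ^ 2 := by positivity
  apply mul_le_mul I.hS _ (norm_nonneg _) hM0.le
  rw [ContinuousMap.norm_le _ hc4]
  intro x
  rw [Real.norm_eq_abs, ContinuousMap.sum_apply]
  refine (Finset.abs_sum_le_sum_abs _ _).trans ?_
  have h2 : ∀ c ∈ A, |((SignType.sign (I.S (h * ph k c) y) : ℝ) • (h * ph k c)) x| ≤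
      if cc k / 2 < |x.1 c| then 1 else 0 := by
    intro c _
    rw [ContinuousMap.smul_apply, smul_eq_mul, abs_mul, ContinuousMap.mul_apply, abs_mul,
      abs_of_nonneg (h0 x), abs_of_nonneg (ph_nonneg k c x)]
    have hs : |((SignType.sign (I.S (h * ph k c) y) : SignType) : ℝ)| ≤ 1 := by
      rcases lt_trichotomy (I.S (h * ph k c) y) 0 with hh | hh | hh
      · simp [sign_neg hh]
      · simp [hh]
      · simp [sign_pos hh]
    by_cases hx : cc k / 2 < |x.1 c|
    · rw [if_pos hx]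
      have a1 := h0 x
      have a2 := h1 x
      have a3 := ph_nonneg k c x
      have a4 := ph_le_one k c x
      have a5 : h x * ph k c x ≤ 1 := by nlinarith
      have a6 : 0 ≤ h x * ph k c x := mul_nonneg a1 a3
      have a7 := abs_nonneg ((SignType.sign (I.S (h * ph k c) y) : SignType) : ℝ)
      nlinarith
    · rw [if_neg hx]
      have a3 : ph k c x = 0 := by
        by_contra hne
        exact hx (ph_ne_zero k c x hne)
      rw [a3]
      simp
  refine (Finset.sum_le_sum h2).trans ?_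
  rw [Finset.sum_ite, Finset.sum_const_zero, add_zero, Finset.sum_const, nsmul_eq_mul, mul_one]
  apply card_large x (cc k) (cc_pos k)
  intro γ hγ
  exact (Finset.mem_filter.1 hγ).2

theorem exists_ext {κ : Type} [Infinite κ] (γ0 : ℕ → κ) (hγ0 : Function.Injective γ0) (m : ℕ)
    (F : Finset (κ × ℕ)) (hg : ∀ w ∈ F, w.1 ∉ (Finset.range m).image γ0)
    (hF1 : InjOn Prod.fst (F : Set (κ × ℕ))) (hF2 : InjOn Prod.snd (F : Set (κ × ℕ))) :
    ∃ γ' : ℕ → κ, Function.Injective γ' ∧ (∀ i < m, γ' i = γ0 i) ∧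
      ∀ w ∈ F, γ' (m + w.2) = w.1 := by
  let Bd : Set κ := ((Finset.range m).image γ0 ∪ F.image Prod.fst : Finset κ)
  have hBd : (Bdᶜ).Infinite := (Finset.finite_toSet _).infinite_compl
  haveI : Infinite ↥(Bdᶜ) := hBd.to_subtype
  let em : ℕ ↪ ↥(Bdᶜ) := Infinite.natEmbedding _
  have hem : ∀ i, (em i : κ) ∉ ((Finset.range m).image γ0 ∪ F.image Prod.fst : Finset κ) :=
    fun i => (em i).2
  have hem1 : ∀ i j, j < m → (em i : κ) ≠ γ0 j := by
    intro i j hj he
    apply hem i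
    rw [Finset.mem_union]
    left
    rw [he]
    exact Finset.mem_image_of_mem _ (Finset.mem_range.2 hj)
  have hem2 : ∀ i, ∀ w ∈ F, (em i : κ) ≠ w.1 := by
    intro i w hw he
    apply hem i
    rw [Finset.mem_union]
    right
    rw [he]
    exact Finset.mem_image_of_mem _ hw
  let γ' : ℕ → κ := fun i => if i < m then γ0 i else
    if h : ∃ w ∈ F, m + w.2 = i then h.choose.1 else em i
  have h1 : ∀ i < m, γ' i = γ0 i := fun i hi => if_pos hi
  have h2 : ∀ w ∈ F, γ' (m + w.2) = w.1 := by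
    intro w hw
    have hlt : ¬ m + w.2 < m := by omega
    have hex : ∃ w' ∈ F, m + w'.2 = m + w.2 := ⟨w, hw, rfl⟩
    have e1 : γ' (m + w.2) = hex.choose.1 := by
      change (if m + w.2 < m then γ0 (m + w.2) else if h : ∃ w' ∈ F, m + w'.2 = m + w.2 then
        h.choose.1 else em (m + w.2)) = _
      rw [if_neg hlt, dif_pos hex]
    rw [e1]
    have h3 := hex.choose_spec
    have h4 : hex.choose = w := hF2 h3.1 hw (by have := h3.2; omega)
    rw [h4]
  have h3 : ∀ i, (i < m ∧ γ' i = γ0 i) ∨ (∃ w ∈ F, m + w.2 = i ∧ γ' i = w.1) ∨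
      (γ' i = em i ∧ ¬ i < m) := by
    intro i
    by_cases hi : i < m
    · exact Or.inl ⟨hi, h1 i hi⟩
    · by_cases hex : ∃ w ∈ F, m + w.2 = i
      · obtain ⟨w, hw, rfl⟩ := hex
        exact Or.inr (Or.inl ⟨w, hw, rfl, h2 w hw⟩)
      · refine Or.inr (Or.inr ⟨?_, hi⟩)
        change (if i < m then γ0 i else if h : ∃ w' ∈ F, m + w'.2 = i then
          h.choose.1 else em i) = _
        rw [if_neg hi, dif_neg hex]
  have hg' : ∀ w ∈ F, ∀ i < m, w.1 ≠ γ0 i := by
    intro w hw i hi he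
    apply hg w hw
    rw [he]
    exact Finset.mem_image_of_mem _ (Finset.mem_range.2 hi)
  refine ⟨γ', ?_, h1, h2⟩
  intro a b hab
  rcases h3 a with ⟨ha, ha'⟩ | ⟨w, hw, rfl, ha'⟩ | ⟨ha', ha⟩ <;>
    rcases h3 b with ⟨hb, hb'⟩ | ⟨w', hw', rfl, hb'⟩ | ⟨hb', hb⟩ <;> rw [ha', hb'] at hab
  · exact hγ0 hab
  · exact absurd hab.symm (hg' w' hw' a ha)
  · exact absurd hab.symm (hem1 b a ha)
  · exact absurd hab (hg' w hw b hb)
  · rw [hF1 hw hw' hab]
  · exact absurd hab.symm (hem2 b w hw)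
  · exact absurd hab (hem1 a b hb)
  · exact absurd hab (hem2 a w' hw')
  · exact em.injective (Subtype.ext hab)

theorem st2 : T_ST2 := by
  intro κ L _ _ _ _ _ _ I hB
  have hM := I.hM
  have hM0 : 0 < I.M := by linarith
  obtain ⟨n, m, γ0, hnm, hγ0, hgood⟩ := exists_good (fun γ n => Base I γ n) hB
  have hV : ∀ (c : κ) (k : ℕ), ∃ C : Set L, IsClopen C ∧
      {y | 3 / (8 * I.M) ≤ |I.S (hb γ0 n * ph (m + k) c) y|} ⊆ C ∧
      C ⊆ {y | 1 / (4 * I.M) < |I.S (hb γ0 n * ph (m + k) c) y|} := by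
    intro c k
    apply exists_clopen_of_closed_subset_open
    · exact isClosed_le continuous_const (I.S (hb γ0 n * ph (m + k) c)).continuous.abs
    · exact isOpen_lt continuous_const (I.S (hb γ0 n * ph (m + k) c)).continuous.abs
    · intro y hy
      rw [Set.mem_ofPred_eq] at hy ⊢
      refine lt_of_lt_of_le ?_ hy
      rw [div_lt_div_iff₀ (by positivity) (by positivity)]
      linarith
  choose V hVc hV1 hV2 using hV
  refine ⟨{
    V := fun c k => ⟨V c k, hVc c k⟩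
    g := (Finset.range m).image γ0
    Nb := fun k => ⌈16 * I.M ^ 2 / cc (m + k) ^ 2⌉₊
    order := ?_
    basic := ?_ }⟩
  · intro k y A hA
    have h1 := order_bound I (hb γ0 n) (hb_nonneg γ0 n) (hb_le_one γ0 n) (m + k) y A
    have h2 : ∑ _c ∈ A, 1 / (4 * I.M) ≤ ∑ c ∈ A, |I.S (hb γ0 n * ph (m + k) c) y| := by
      apply Finset.sum_le_sum
      intro c hc
      have h3 : y ∈ V c k := hA c hc
      exact (hV2 c k h3).le
    rw [Finset.sum_const, nsmul_eq_mul] at h2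
    have h3 : (A.card : ℝ) ≤ 16 * I.M ^ 2 / cc (m + k) ^ 2 := by
      have h4 : (A.card : ℝ) * (1 / (4 * I.M)) ≤ I.M * (4 / cc (m + k) ^ 2) := h2.trans h1
      have h5 : (A.card : ℝ) = (A.card : ℝ) * (1 / (4 * I.M)) * (4 * I.M) := by
        field_simp
      rw [h5]
      calc (A.card : ℝ) * (1 / (4 * I.M)) * (4 * I.M) ≤
          I.M * (4 / cc (m + k) ^ 2) * (4 * I.M) :=
            mul_le_mul_of_nonneg_right h4 (by positivity)
        _ = 16 * I.M ^ 2 / cc (m + k) ^ 2 := by ring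
    exact_mod_cast h3.trans (Nat.le_ceil _)
  · intro F hg hF1 hF2
    obtain ⟨γ', hγ', hγ'1, hγ'2⟩ := exists_ext γ0 hγ0 m F hg hF1 hF2
    obtain ⟨γ, hγ, hγ1, y, hy⟩ := hgood γ' hγ' hγ'1 (m + F.sup Prod.snd + 1)
    rw [ne_bot_iff]
    refine ⟨y, ?_⟩
    rw [mem_VF]
    intro w hw
    have h1 : w.2 ≤ F.sup Prod.snd := Finset.le_sup (f := Prod.snd) hw
    have h2 : γ (m + w.2) = w.1 := by
      rw [hγ1 _ (by omega), hγ'2 w hw]
    have h3 : hb γ n = hb γ0 n := by
      apply hb_congr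
      intro i hi
      rw [hγ1 i (by omega), hγ'1 i (by omega)]
    have h4 := hy (m + w.2)
    rw [h2, h3] at h4
    exact hV1 w.1 w.2 h4

end Pool.Agent.W683.BH
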