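import Pool.Agent.W683.BH.Help

/-!
# MP_9e0ccb_an: task TE
-/

set_option autoImplicit false

namespace Pool.Agent.W683.BH

open Set Filter Topology Cardinal TopologicalSpace
open scoped Classical

theorem sh_mono {κ : Type} (r : ℕ) {F F' : Finset (κ × ℕ)} (h : F ⊆ F') : sh r F ⊆ sh r F' :=
  Finset.image_subset_image h

theorem sh_union {κ : Type} (r : ℕ) (F F' : Finset (κ × ℕ)) :
    sh r (F ∪ F') = sh r F ∪ sh r F' := Finset.image_union _ _

theorem mem_sh {κ : Type} (r : ℕ) (F : Finset (κ × ℕ)) (u : κ × ℕ) :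
    u ∈ sh r F ↔ ∃ w ∈ F, (w.1, r + w.2) = u := Finset.mem_image

theorem mem_atm {κ : Type} {r : ℕ} (α : Fin r → κ) (J : Finset (Fin r)) (u : κ × ℕ) :
    u ∈ atm α J ↔ ∃ q ∈ J, (α q, (q : ℕ)) = u := Finset.mem_image

theorem te_disj {κ L : Type} [TopologicalSpace L] [CompactSpace L] [CompactSpace (U κ)]
    (T : C(L, ℝ) →L[ℝ] C(U κ, ℝ)) (M : ℝ) (hT : ‖T‖ ≤ M) {ι : Type} (A : Finset ι)
    (W : ι → Clopens L) (hd : ∀ i ∈ A, ∀ j ∈ A, i ≠ j → ∀ y, y ∈ W i → y ∉ W j) (x : U κ) :
    ∑ i ∈ A, |T (ind (W i)) x| ≤ M := by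
  have h1 := sum_abs_le A W hd (evT T x)
  simp only [evT_apply] at h1
  exact h1.trans ((norm_evT_le T x).trans hT)

theorem te : T_TE := by
  intro hDEP κ L _ _ _ _ T M hT s N r α hN hα hαN hNg
  let W : Finset (κ × ℕ) → Clopens L := fun F => VF s.V (sh r F ∪ atm α Finset.univ)
  have hWanti : ∀ F F', F ⊆ F' → W F' ≤ W F := by
    intro F F' h
    exact VF_anti s.V (Finset.union_subset_union (sh_mono r h) (subset_refl _))
  have hWinf : ∀ F F' y, y ∈ W F → y ∈ W F' → y ∈ W (F ∪ F') := by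
    intro F F' y h h'
    change y ∈ VF s.V (sh r (F ∪ F') ∪ atm α Finset.univ)
    rw [mem_VF]
    have h1 := (mem_VF s.V _ y).1 h
    have h2 := (mem_VF s.V _ y).1 h'
    intro u hu
    rw [sh_union, Finset.mem_union, Finset.mem_union] at hu
    rcases hu with (hu | hu) | hu
    · exact h1 u (Finset.mem_union_left _ hu)
    · exact h2 u (Finset.mem_union_left _ hu)
    · exact h1 u (Finset.mem_union_right _ hu)
  refine ⟨{
    N := N
    P := fun F => W F ≠ ⊥
    f := fun F => T (ind (W F))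
    M := M
    Nb := fun k => s.Nb (r + k)
    hN := hN
    anti := ?_
    basic := ?_
    order := ?_
    dep := fun F => hDEP κ (T (ind (W F)))
    disj := ?_
    mono := ?_ }, rfl, fun F => Iff.rfl, fun F => rfl⟩
  · intro F F' h h1 h2
    apply h1
    have h3 := hWanti F F' h
    rw [h2] at h3
    exact le_bot_iff.1 h3
  · intro F hFN hF1 hF2
    apply s.basic
    · intro w hw
      rw [Finset.mem_union, mem_sh, mem_atm] at hw
      rcases hw with ⟨u, hu, rfl⟩ | ⟨q, -, rfl⟩
      · exact hNg _ (hFN u hu)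
      · exact (hαN q).2
    · intro a ha b hb hab
      rw [Finset.mem_coe, Finset.mem_union, mem_sh, mem_atm] at ha hb
      rcases ha with ⟨u, hu, rfl⟩ | ⟨q, -, rfl⟩ <;> rcases hb with ⟨v, hv, rfl⟩ | ⟨p, -, rfl⟩
      · rw [hF1 hu hv hab]
      · exact absurd (hFN u hu) (by
          have h1 : u.1 = α p := hab
          rw [h1]; exact (hαN p).1)
      · exact absurd (hFN v hv) (by
          have h1 : α q = v.1 := hab
          rw [← h1]; exact (hαN q).1)
      · rw [hα hab]
    · intro a ha b hb hab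
      rw [Finset.mem_coe, Finset.mem_union, mem_sh, mem_atm] at ha hb
      rcases ha with ⟨u, hu, rfl⟩ | ⟨q, -, rfl⟩ <;> rcases hb with ⟨v, hv, rfl⟩ | ⟨p, -, rfl⟩
      · have h1 : r + u.2 = r + v.2 := hab
        rw [hF2 hu hv (by omega)]
      · have h1 : r + u.2 = (p : ℕ) := hab
        have := p.2
        omega
      · have h1 : (q : ℕ) = r + v.2 := hab
        have := q.2
        omega
      · have h1 : (q : ℕ) = p := hab
        rw [Fin.ext h1]
  · intro k F hF hP
    obtain ⟨y, hy⟩ := (ne_bot_iff _).1 hP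
    have h1 : (F.image Prod.fst).card = F.card := by
      apply Finset.card_image_of_injOn
      intro a ha b hb hab
      exact Prod.ext hab ((hF a ha).trans (hF b hb).symm)
    rw [← h1]
    apply s.order (r + k) y
    intro γ hγ
    obtain ⟨w, hw, rfl⟩ := Finset.mem_image.1 hγ
    have h2 := (mem_VF s.V _ y).1 hy (w.1, r + w.2)
      (Finset.mem_union_left _ ((mem_sh r F _).2 ⟨w, hw, rfl⟩))
    rw [hF w hw] at h2
    exact h2
  · intro A hA x
    apply te_disj T M hT A W
    intro F hF F' hF' hne y hy hy'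
    apply hA F hF F' hF' hne
    exact (ne_bot_iff _).2 ⟨y, hWinf F F' y hy hy'⟩
  · intro F hF x n
    have h1 : ∀ i, T (ind (W (F i))) x - T (ind (W (F (i + 1)))) x =
        T (ind (W (F i) \ W (F (i + 1)))) x := by
      intro i
      rw [ind_sdiff (hWanti _ _ (hF (Nat.le_succ i))), map_sub, ContinuousMap.sub_apply]
    simp only [h1]
    apply te_disj T M hT (Finset.range n) (fun i => W (F i) \ W (F (i + 1)))
    have h2 : ∀ i j, i < j → ∀ y, y ∈ W (F i) \ W (F (i + 1)) → y ∉ W (F j) \ W (F (j + 1)) := by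
      intro i j hij y hy hy'
      have h3 : y ∉ W (F (i + 1)) := hy.2
      have h4 : y ∈ W (F j) := hy'.1
      exact h3 (hWanti _ _ (hF (Nat.succ_le_of_lt hij)) h4)
    intro i _ j _ hne y hy hy'
    rcases lt_or_gt_of_ne hne with h | h
    · exact h2 i j h y hy hy'
    · exact h2 j i h y hy' hy

end Pool.Agent.W683.BH
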