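import Pool.Agent.W683.BH.Defs

/-!
# MP_9e0ccb_an, MP_751bb7_an: statements of the tasks
-/

set_option autoImplicit false

namespace Pool.Agent.W683.BH

open Set Filter Topology Cardinal TopologicalSpace
open scoped Classical

/-- (CPT) -/
def T_CPT : Prop := ∀ κ : Type, CompactSpace (U κ)

/-- (DEP) -/
def T_DEP : Prop := ∀ (κ : Type) [CompactSpace (U κ)] (f : C(U κ, ℝ)),
  ∃ C : Set κ, C.Countable ∧ Dep f C

/-- (DOM) a functional on `C(X)` is dominated by a measure -/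
def T_DOM : Prop := ∀ (X : Type) [TopologicalSpace X] [CompactSpace X] [T2Space X]
  [MeasurableSpace X] [BorelSpace X] (φ : C(X, ℝ) →L[ℝ] ℝ),
  ∃ ρ : MeasureTheory.Measure X, MeasureTheory.IsFiniteMeasure ρ ∧
    ρ univ ≤ ENNReal.ofReal ‖φ‖ ∧ ∀ f : C(X, ℝ), |φ f| ≤ ∫ x, |f x| ∂ρ

/-- (ST1) every injective sequence has a base -/
def T_ST1 : Prop := T_DOM → ∀ (κ L : Type) [TopologicalSpace L] [CompactSpace L] [T2Space L]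
  [CompactSpace (U κ)] (I : Iso κ L) (γ : ℕ → κ), Function.Injective γ → ∃ n, Base I γ n

/-- (ST2) -/
def T_ST2 : Prop := ∀ (κ L : Type) [TopologicalSpace L] [CompactSpace L] [T2Space L]
  [TotallyDisconnectedSpace L] [CompactSpace (U κ)] [Infinite κ] (I : Iso κ L),
  (∀ γ : ℕ → κ, Function.Injective γ → ∃ n, Base I γ n) → Nonempty (Sys κ L)

/-- (FREE) free tuples -/
def T_FREE : Prop := ∀ (κ : Type) (lam : Cardinal.{0}) (r : ℕ), ℵ₀ ≤ lam →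
  (Order.succ^[r] lam) ≤ #κ → ∀ B : Fin r → (Fin r → κ) → Set κ, (∀ i a, #(B i a) ≤ lam) →
  (∀ i a a', (∀ q, q ≠ i → a q = a' q) → B i a = B i a') → ∃ a : Fin r → κ, ∀ i, a i ∉ B i a

/-- `α` is a tuple of atoms which is generic over `N` -/
structure IsAtoms {κ L : Type} [TopologicalSpace L] [CompactSpace L] [CompactSpace (U κ)]
    (T : C(L, ℝ) →L[ℝ] C(U κ, ℝ)) (V : κ → ℕ → Clopens L) (N : Set κ) {r : ℕ}
    (α : Fin r → κ) (C : Fin r → Set κ) : Prop where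
  dep : ∀ (i : Fin r) (J : Finset (Fin r)), i ∉ J → ∀ G : Finset (κ × ℕ), (∀ w ∈ G, w.1 ∈ N) →
    Dep (T (ind (VF V (G ∪ atm α J)))) (C i)
  zero : ∀ (i : Fin r) (G : Finset (κ × ℕ)), (∀ w ∈ G, w.1 ∈ N) → ∀ x : U κ,
    (∀ γ, γ ∉ C i → x.1 γ = 0) → T (ind (VF V (G ∪ atm α Finset.univ))) x = 0

/-- (ATOM) existence of atoms -/
def T_ATOM : Prop := T_DEP → T_FREE → ∀ (κ L : Type) [TopologicalSpace L] [CompactSpace L]
  [T2Space L] [CompactSpace (U κ)] (T : C(L, ℝ) →L[ℝ] C(U κ, ℝ)) (s : Sys κ L) (N : Set κ)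
  (lam : Cardinal.{0}) (r : ℕ), ℵ₀ ≤ lam → #N ≤ lam → (Order.succ^[r] lam) ≤ #κ →
  ∃ α : Fin r → κ, Function.Injective α ∧ (∀ q, α q ∉ N ∧ α q ∉ s.g) ∧
    ∃ C : Fin r → Set κ, IsAtoms T s.V N α C

/-- (TE) the tail environment -/
def T_TE : Prop := T_DEP → ∀ (κ L : Type) [TopologicalSpace L] [CompactSpace L] [T2Space L]
  [CompactSpace (U κ)] (T : C(L, ℝ) →L[ℝ] C(U κ, ℝ)) (M : ℝ), ‖T‖ ≤ M → ∀ (s : Sys κ L)
  (N : Set κ) (r : ℕ) (α : Fin r → κ), 𝔠 < #N → Function.Injective α →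
  (∀ q, α q ∉ N ∧ α q ∉ s.g) → (∀ γ ∈ N, γ ∉ s.g) →
  ∃ E : TE κ, E.N = N ∧ (∀ F, E.P F ↔ VF s.V (sh r F ∪ atm α Finset.univ) ≠ ⊥) ∧
    ∀ F, E.f F = T (ind (VF s.V (sh r F ∪ atm α Finset.univ)))

/-- (TAIL) -/
def TAIL : Prop := ∀ (κ : Type) [CompactSpace (U κ)] (E : TE κ), ∃ w : ℕ → κ × ℕ,
  (∀ n, (w n).1 ∈ E.N) ∧ (∀ n, E.P (Fw w n)) ∧
  ∀ x : U κ, Room x → Tendsto (fun n => E.f (Fw w n) x) atTop (𝓝 0)

/-- (KILL) -/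
def T_KILL : Prop := ∀ (κ : Type) (E : TE κ), ∃ D, IsKill E D

/-- (CLOS) closing off under a countable-ary operation -/
def T_CLOS : Prop := ∀ (κ : Type) (Op : (ℕ → Option κ) → Set κ), (∀ ρ, Small (Op ρ)) →
  ∀ S : Set κ, Small S → ∃ M : Set κ, S ⊆ M ∧ Small M ∧
    ∀ ρ : ℕ → Option κ, (∀ n a, ρ n = some a → a ∈ M) → Op ρ ⊆ M

/-- (CODE) -/
def T_CODE : Prop := ∀ (κ : Type) (E : TE κ) (w : ℕ → κ × ℕ) (e : ℕ → κ), IsEn E w e →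
  ∃ c : Code, HasCode E w e c

/-- (CARD) -/
def T_CARD : Prop := #Code ≤ 𝔠

/-- (TYPE) -/
def T_TYPE : Prop := T_CLOS → T_CARD → ∀ (κ : Type) (E : TE κ)
  (D : Finset (κ × ℕ) → List (κ × ℕ) → Set κ), IsKill E D → ∃ Clo, IsClo E D Clo

/-- (PLAY) -/
def T_PLAY : Prop := ∀ (κ : Type) (E : TE κ) (D : Finset (κ × ℕ) → List (κ × ℕ) → Set κ)
  (Clo : Set κ → Prop), IsKill E D → IsClo E D Clo → ∃ w A, IsPlay E Clo w A

/-- (ENUM) enumeration of the relevant coordinates of a play -/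
def T_ENUM : Prop := ∀ (κ : Type) (E : TE κ) (D : Finset (κ × ℕ) → List (κ × ℕ) → Set κ)
  (Clo : Set κ → Prop) (w : ℕ → κ × ℕ) (A : ℕ → Set κ), IsClo E D Clo → IsPlay E Clo w A →
  ∃ e : ℕ → κ, IsEn E w e ∧ (∀ i, ∃ n, e i ∈ A n) ∧ ∀ n₀, Gen E D (A n₀) n₀ w

/-- pairwise incompatible copies of a play -/
def Copies {κ : Type} (E : TE κ) (w : ℕ → κ × ℕ) (e : ℕ → κ) (B : Set κ) : Prop :=
  ∀ m : ℕ, ∃ (w' : Fin m → ℕ → κ × ℕ) (e' : Fin m → ℕ → κ) (c : Code), HasCode E w e c ∧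
    (∀ l, IsEn E (w' l) (e' l)) ∧ (∀ l, HasCode E (w' l) (e' l) c) ∧
    (∀ l i, e i ∈ B → e' l i = e i) ∧ (∀ l i, e i ∉ B → e' l i ∉ B) ∧
    (∀ l l' i i', l ≠ l' → e i ∉ B → e i' ∉ B → e' l i ≠ e' l' i') ∧
    ∀ l l', l ≠ l' → ∃ n, ∀ n', n ≤ n' → Fw (w' l) n' ≠ Fw (w' l') n' ∧
      ¬ E.P (Fw (w' l) n' ∪ Fw (w' l') n')

/-- (COPY) -/
def T_COPY : Prop := T_CODE → ∀ (κ : Type) (E : TE κ)
  (D : Finset (κ × ℕ) → List (κ × ℕ) → Set κ) (Clo : Set κ → Prop) (w : ℕ → κ × ℕ)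
  (A : ℕ → Set κ) (e : ℕ → κ), IsKill E D → IsClo E D Clo → IsPlay E Clo w A → IsEn E w e →
  (∀ n₀, Gen E D (A n₀) n₀ w) → ∀ n₀, Copies E w e (A n₀)

/-- (P1) -/
def T_P1 : Prop := ∀ (κ : Type) (E : TE κ) (w : ℕ → κ × ℕ) (e : ℕ → κ) (A : ℕ → Set κ),
  IsEn E w e → (∀ n, A n ⊆ A (n + 1)) → (∀ i, ∃ n, e i ∈ A n) →
  (∀ n₀, Copies E w e (A n₀)) →
  ∀ x : U κ, Room x → Tendsto (fun n => E.f (Fw w n) x) atTop (𝓝 0)

/-! ### the final contradiction -/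

/-- (SH) the shift maps -/
def T_SH : Prop := ∀ (κ : Type) (Θ : κ → ℝ), (∀ γ, 0 ≤ Θ γ) →
  ∃ σ : C(U κ, U κ), ∀ x γ, (σ x).1 γ = soft (Θ γ) (x.1 γ)

/-- (SHC) small shifts change a continuous function little -/
def T_SHC : Prop := ∀ (κ : Type) [CompactSpace (U κ)] (g : C(U κ, ℝ)) (ε : ℝ), 0 < ε →
  ∃ θ : ℝ, 0 < θ ∧ ∀ x y : U κ, (∀ γ, |y.1 γ - x.1 γ| ≤ θ) → |g y - g x| ≤ ε

/-- (RM) a shift off `C` makes room unless the point vanishes off `C` afterwards -/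
def T_RM : Prop := ∀ (κ : Type) (C : Set κ) (θ : ℝ), 0 < θ → ∀ x y : U κ,
  (∀ γ ∈ C, y.1 γ = x.1 γ) → (∀ γ, γ ∉ C → y.1 γ = soft θ (x.1 γ)) →
  (∀ γ, γ ∉ C → y.1 γ = 0) ∨ Room y

/-- the clopen set used in the averaging argument: all conditions outside the transversal hold,
but not all conditions -/
noncomputable def missing {L : Type} [TopologicalSpace L] {s n : ℕ} (V₀ : Clopens L)
    (W : Fin s × Fin n → Clopens L) (q : Fin s) (t : Fin s → Fin n) : Clopens L :=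
  (V₀ ⊓ (Finset.univ.filter (fun i : Fin s × Fin n => i.1 = q ∨ i.2 ≠ t i.1)).inf W) \
    (V₀ ⊓ Finset.univ.inf W)

/-- (AVG) -/
def T_AVG : Prop := ∀ (L X : Type) [TopologicalSpace L] [CompactSpace L] [TopologicalSpace X]
  [CompactSpace X] (T : C(L, ℝ) →L[ℝ] C(X, ℝ)) (M : ℝ), ‖T‖ ≤ M → ∀ (s n : ℕ) (V₀ : Clopens L)
  (W : Fin s × Fin n → Clopens L) (q : Fin s) (τ : Fin n) (x : X),
  n * ∑ t ∈ Finset.univ.filter (fun t : Fin s → Fin n => t q = τ),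
    |T (ind (missing V₀ W q t)) x| ≤ M * (n : ℝ) ^ (s - 1)

/-- (CHAIN) -/
def T_CHAIN : Prop := T_DOM → T_SH → T_SHC → T_RM → T_AVG → ∀ (κ L : Type) [TopologicalSpace L]
  [CompactSpace L] [T2Space L] [CompactSpace (U κ)] (I : Iso κ L) (V : κ → ℕ → Clopens L)
  (N : Set κ) (s n : ℕ), 2 * I.M ^ 2 < s → 8 * s * I.M ^ 2 ≤ n → ∀ (α : Fin (s * n) → κ)
  (C : Fin (s * n) → Set κ), IsAtoms I.T V N α C → ∀ w : ℕ → κ × ℕ, (∀ k, (w k).1 ∈ N) →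
  (∀ k, VF V (Fw w k ∪ atm α Finset.univ) ≠ ⊥) →
  (∀ x : U κ, Room x →
    Tendsto (fun k => I.T (ind (VF V (Fw w k ∪ atm α Finset.univ))) x) atTop (𝓝 0)) → False

/-- (MAIN) -/
def MAIN : Prop := ∀ (κ L : Type) [TopologicalSpace L] [CompactSpace L] [T2Space L]
  [TotallyDisconnectedSpace L] [CompactSpace (U κ)], Cardinal.beth Ordinal.omega0 ≤ #κ →
  IsEmpty (C(L, ℝ) ≃L[ℝ] C(U κ, ℝ))

/-- (HOM) the weak unit ball of `ℓ₂(κ)` is `U κ` -/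
def T_HOM : Prop := ∀ κ : Type, Nonempty
  (↥(toWeakSpace ℝ (lp (fun _ : κ => ℝ) 2) ''
    Metric.closedBall (0 : lp (fun _ : κ => ℝ) 2) 1) ≃ₜ U κ)

/-- (SEP) -/
def T_SEP : Prop := ∀ κ : Type, Uncountable κ → ¬ SeparableSpace (lp (fun _ : κ => ℝ) 2)

/-- (BK) the unit ball of `ℓ₁(κ)` with the topology of pointwise convergence is `U κ` -/
def T_BK : Prop := ∀ κ : Type, Nonempty
  (↥{x : κ → ℝ | ∀ A : Finset κ, ∑ i ∈ A, |x i| ≤ 1} ≃ₜ U κ)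

end Pool.Agent.W683.BH
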