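import Pool.Agent.W683.BH.Cpt
import Pool.Agent.W683.BH.Dep
import Pool.Agent.W683.BH.Dom
import Pool.Agent.W683.BH.ST2
import Pool.Agent.W683.BH.Te
import Pool.Agent.W683.BH.Kill
import Pool.Agent.W683.BH.Avg
import Pool.Agent.W683.BH.Chain
import Pool.Agent.W991.BH.Clos
import Pool.Agent.W991.BH.CodeP
import Pool.Agent.W991.BH.Typ
import Pool.Agent.W991.BH.Play
import Pool.Agent.W991.BH.Enum
import Pool.Agent.W991.BH.Copy
import Pool.Agent.W991.BH.P1
import Pool.Agent.W991.BH.Free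
import Pool.Agent.W991.BH.Atom

/-!
# MP_9e0ccb_an, MP_751bb7_an: assembly
-/

set_option autoImplicit false

namespace Pool.Agent.W683.BH

open Set Filter Topology Cardinal TopologicalSpace
open scoped Classical

theorem tail : TAIL := by
  intro κ _ E
  obtain ⟨D, hD⟩ := kill κ E
  obtain ⟨Clo, hClo⟩ := Pool.Agent.W991.BH.typ Pool.Agent.W991.BH.clos Pool.Agent.W991.BH.card
    κ E D hD
  obtain ⟨w, A, hp⟩ := Pool.Agent.W991.BH.play κ E D Clo hD hClo
  obtain ⟨e, he, heA, hgen⟩ := Pool.Agent.W991.BH.enum κ E D Clo w A hClo hp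
  have hcop := Pool.Agent.W991.BH.copy Pool.Agent.W991.BH.code κ E D Clo w A e hD hClo hp he hgen
  refine ⟨w, hp.memN, fun n => ?_, ?_⟩
  · by_contra h
    exact hp.good n (Bad.emp _ h)
  · exact Pool.Agent.W991.BH.p1 κ E w e A he hp.incr heA hcop

theorem succ_iter_le (r : ℕ) : (Order.succ^[r] (Order.succ 𝔠)) ≤ Cardinal.beth (r + 2 : ℕ) := by
  induction r with
  | zero =>
    rw [Function.iterate_zero, id]
    have h1 : 𝔠 = Cardinal.beth (1 : ℕ) := by
      rw [Nat.cast_one, Cardinal.beth_one]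
    rw [h1]
    apply Order.succ_le_of_lt
    apply Cardinal.beth_lt_beth.2
    exact_mod_cast (by norm_num : (1 : ℕ) < 0 + 2)
  | succ r ih =>
    rw [Function.iterate_succ_apply']
    apply Order.succ_le_of_lt
    refine lt_of_le_of_lt ih ?_
    apply Cardinal.beth_lt_beth.2
    exact_mod_cast (by omega : r + 2 < r + 1 + 2)

theorem Fw_sh {κ : Type} (r : ℕ) (w : ℕ → κ × ℕ) (k : ℕ) :
    Fw (fun i => ((w i).1, r + (w i).2)) k = sh r (Fw w k) := by
  unfold Fw sh
  rw [Finset.image_image]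
  rfl

theorem main : MAIN := by
  intro κ L _ _ _ _ _ hκ
  refine ⟨fun Φ => ?_⟩
  haveI hinf : Infinite κ := by
    rw [← Cardinal.aleph0_le_mk_iff]
    exact (Cardinal.aleph0_le_beth _).trans hκ
  let T : C(L, ℝ) →L[ℝ] C(U κ, ℝ) := Φ.toContinuousLinearMap
  let S : C(U κ, ℝ) →L[ℝ] C(L, ℝ) := Φ.symm.toContinuousLinearMap
  let I : Iso κ L :=
    { T := T
      S := S
      M := max 1 (max ‖T‖ ‖S‖)
      TS := fun f => Φ.apply_symm_apply f
      ST := fun g => Φ.symm_apply_apply g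
      hM := le_max_left _ _
      hT := (le_max_left _ _).trans (le_max_right _ _)
      hS := (le_max_right _ _).trans (le_max_right _ _) }
  obtain ⟨s⟩ := st2 κ L I (st1 dom κ L I)
  obtain ⟨s0, hs0⟩ := exists_nat_gt (2 * I.M ^ 2)
  obtain ⟨n, hn⟩ := exists_nat_ge (8 * s0 * I.M ^ 2)
  have hcg : #(((s.g : Set κ)ᶜ : Set κ)) = #κ := Cardinal.mk_compl_finset_of_infinite s.g
  have hsucc : Order.succ 𝔠 ≤ Cardinal.beth Ordinal.omega0 := by
    refine (succ_iter_le 0).trans ?_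
    apply Cardinal.beth_le_beth.2
    exact (Ordinal.nat_lt_omega0 _).le
  obtain ⟨N, hNg, hN⟩ := (Cardinal.le_mk_iff_exists_subset (c := Order.succ 𝔠)
    (s := (s.g : Set κ)ᶜ)).1 (by rw [hcg]; exact hsucc.trans hκ)
  obtain ⟨α, hα, hαN, C, hA⟩ := Pool.Agent.W991.BH.atom dep Pool.Agent.W991.BH.free κ L I.T s N
    (Order.succ 𝔠) (s0 * n) (Cardinal.aleph0_le_continuum.trans (Order.le_succ _)) hN.le
    ((succ_iter_le (s0 * n)).trans (le_trans
      (Cardinal.beth_le_beth.2 (Ordinal.nat_lt_omega0 _).le) hκ))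
  obtain ⟨E, hEN, hEP, hEf⟩ := te dep κ L I.T I.M I.hT s N (s0 * n) α
    (by rw [hN]; exact Order.lt_succ _) hα hαN (fun γ hγ => hNg hγ)
  obtain ⟨w, hw1, hw2, hw3⟩ := tail κ E
  refine chain dom sh_map shc rm avg κ L I s.V N s0 n hs0 hn α C hA
    (fun i => ((w i).1, s0 * n + (w i).2)) ?_ ?_ ?_
  · intro k
    rw [← hEN]
    exact hw1 k
  · intro k
    rw [Fw_sh]
    exact (hEP _).1 (hw2 k)
  · intro x hx
    have h1 := hw3 x hx
    simp only [hEf] at h1
    simp only [Fw_sh]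
    exact h1

end Pool.Agent.W683.BH
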