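import Pool.Agent.W683.BH.Main
import Pool.Agent.W683.BH.Hom

/-!
# MP_9e0ccb_an, MP_751bb7_an: the quantitative form
-/

set_option autoImplicit false

namespace Pool.Agent.W683.BH

open Set Filter Topology Cardinal TopologicalSpace
open scoped Classical

/-- the quantitative form of the main theorem -/
theorem quant (κ L : Type) [TopologicalSpace L] [CompactSpace L] [T2Space L]
    [TotallyDisconnectedSpace L] [CompactSpace (U κ)] (I : Iso κ L) (s0 n : ℕ)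
    (hs0 : 2 * I.M ^ 2 < s0) (hn : 8 * s0 * I.M ^ 2 ≤ n)
    (hκ : Order.succ^[s0 * n + 1] 𝔠 ≤ #κ) : False := by
  have hκ' : Order.succ^[s0 * n] (Order.succ 𝔠) ≤ #κ := by
    rw [Function.iterate_succ_apply] at hκ
    exact hκ
  have hit : ∀ (k : ℕ) (c : Cardinal.{0}), c ≤ Order.succ^[k] c := by
    intro k
    induction k with
    | zero => intro c; exact le_refl _
    | succ k ih =>
      intro c
      rw [Function.iterate_succ_apply']
      exact (ih c).trans (Order.le_succ _)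
  have hsucc : Order.succ 𝔠 ≤ #κ := (hit _ _).trans hκ'
  haveI hinf : Infinite κ := by
    rw [← Cardinal.aleph0_le_mk_iff]
    exact (Cardinal.aleph0_le_continuum.trans (Order.le_succ _)).trans hsucc
  obtain ⟨s⟩ := st2 κ L I (st1 dom κ L I)
  have hcg : #(((s.g : Set κ)ᶜ : Set κ)) = #κ := Cardinal.mk_compl_finset_of_infinite s.g
  obtain ⟨N, hNg, hN⟩ := (Cardinal.le_mk_iff_exists_subset (c := Order.succ 𝔠)
    (s := (s.g : Set κ)ᶜ)).1 (by rw [hcg]; exact hsucc)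
  obtain ⟨α, hα, hαN, C, hA⟩ := Pool.Agent.W991.BH.atom dep Pool.Agent.W991.BH.free κ L I.T s N
    (Order.succ 𝔠) (s0 * n) (Cardinal.aleph0_le_continuum.trans (Order.le_succ _)) hN.le hκ'
  obtain ⟨E, hEN, hEP, hEf⟩ := te dep κ L I.T I.M I.hT s N (s0 * n) α
    (by rw [hN]; exact Order.lt_succ _) hα hαN (fun γ hγ => hNg hγ)
  obtain ⟨w, hw1, hw2, hw3⟩ := tail κ E
  refine chain dom sh_map shc rm avg κ L I s.V N s0 n hs0 hn α C hA
    (fun i => ((w i).1, s0 * n + (w i).2)) ?_ ?_ ?_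
  · intro k
    rw [← hEN]
    exact hw1 k
  · intro k
    rw [Fw_sh]
    exact (hEP _).1 (hw2 k)
  · intro x hx
    have h1 := hw3 x hx
    simp only [hEf] at h1
    simp only [Fw_sh]
    exact h1

/-- lower bound for the Banach-Mazur distance -/
theorem quant2 (κ L : Type) [TopologicalSpace L] [CompactSpace L] [T2Space L]
    [TotallyDisconnectedSpace L] [CompactSpace (U κ)] (d : ℝ) (hd : 1 ≤ d) (m : ℕ)
    (hm : 76 * d ^ 3 ≤ m) (hκ : Order.succ^[m] 𝔠 ≤ #κ) (T : C(L, ℝ) →L[ℝ] C(U κ, ℝ))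
    (S : C(U κ, ℝ) →L[ℝ] C(L, ℝ)) (hTS : ∀ f, T (S f) = f) (hST : ∀ g, S (T g) = g) :
    d < ‖T‖ * ‖S‖ := by
  by_contra hcon
  push Not at hcon
  have hd0 : 0 < d := by linarith
  -- the norms are positive
  have hx : Nonempty (U κ) := ⟨⟨fun _ => 0, fun A => by simp⟩⟩
  have hnz : ∃ f : C(U κ, ℝ), f ≠ 0 := by
    refine ⟨1, fun h => ?_⟩
    obtain ⟨x⟩ := hx
    have := DFunLike.congr_fun h x
    simp at this
  obtain ⟨f, hf⟩ := hnz
  have hT0 : 0 < ‖T‖ := by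
    apply lt_of_le_of_ne T.opNorm_nonneg
    intro h
    apply hf
    have h1 := T.le_opNorm (S f)
    rw [← h, zero_mul, hTS] at h1
    exact norm_le_zero_iff.1 h1
  have hS0 : 0 < ‖S‖ := by
    apply lt_of_le_of_ne S.opNorm_nonneg
    intro h
    apply hf
    have h1 := S.le_opNorm f
    rw [← h, zero_mul] at h1
    rw [← hTS f, norm_le_zero_iff.1 h1, map_zero]
  -- rescaling
  let c : ℝ := √d / ‖T‖
  have hsd : 0 < √d := Real.sqrt_pos.2 hd0
  have hc : 0 < c := div_pos hsd hT0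
  have hsq : √d * √d = d := Real.mul_self_sqrt hd0.le
  let I : Iso κ L :=
    { T := c • T
      S := c⁻¹ • S
      M := √d
      TS := fun f => by
        change c • T (c⁻¹ • S f) = f
        rw [map_smul, smul_smul, mul_inv_cancel₀ hc.ne', one_smul, hTS]
      ST := fun g => by
        change c⁻¹ • S (c • T g) = g
        rw [map_smul, smul_smul, inv_mul_cancel₀ hc.ne', one_smul, hST]
      hM := by
        rw [Real.one_le_sqrt]
        exact hd
      hT := by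
        apply ContinuousLinearMap.opNorm_le_bound _ hsd.le
        intro g
        change ‖c • T g‖ ≤ _
        rw [norm_smul, Real.norm_of_nonneg hc.le]
        calc c * ‖T g‖ ≤ c * (‖T‖ * ‖g‖) := mul_le_mul_of_nonneg_left (T.le_opNorm g) hc.le
          _ = √d / ‖T‖ * ‖T‖ * ‖g‖ := by ring
          _ = √d * ‖g‖ := by rw [div_mul_cancel₀ _ hT0.ne']
      hS := by
        apply ContinuousLinearMap.opNorm_le_bound _ hsd.le
        intro g
        change ‖c⁻¹ • S g‖ ≤ _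
        rw [norm_smul, Real.norm_of_nonneg (inv_pos.2 hc).le]
        have e1 : c⁻¹ * ‖S‖ ≤ √d := by
          change (√d / ‖T‖)⁻¹ * ‖S‖ ≤ √d
          rw [inv_div, div_mul_eq_mul_div, div_le_iff₀ hsd, hsq]
          exact hcon
        calc c⁻¹ * ‖S g‖ ≤ c⁻¹ * (‖S‖ * ‖g‖) :=
              mul_le_mul_of_nonneg_left (S.le_opNorm g) (inv_pos.2 hc).le
          _ = c⁻¹ * ‖S‖ * ‖g‖ := by ring
          _ ≤ √d * ‖g‖ := mul_le_mul_of_nonneg_right e1 (norm_nonneg _) }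
  have hIM : I.M ^ 2 = d := by
    change √d ^ 2 = d
    rw [sq, hsq]
  let s0 : ℕ := ⌊2 * d⌋₊ + 1
  let n : ℕ := ⌈8 * (s0 : ℝ) * d⌉₊
  have hs0 : 2 * d < s0 := by
    change 2 * d < ((⌊2 * d⌋₊ + 1 : ℕ) : ℝ)
    push_cast
    exact Nat.lt_floor_add_one _
  have hs0' : (s0 : ℝ) ≤ 3 * d := by
    change ((⌊2 * d⌋₊ + 1 : ℕ) : ℝ) ≤ 3 * d
    push_cast
    have := Nat.floor_le (show 0 ≤ 2 * d by linarith)
    linarith
  have hn : 8 * s0 * d ≤ n := Nat.le_ceil _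
  have hn' : (n : ℝ) ≤ 25 * d ^ 2 := by
    have h1 : (n : ℝ) < 8 * s0 * d + 1 := Nat.ceil_lt_add_one (by positivity)
    nlinarith
  have hsn : s0 * n + 1 ≤ m := by
    have h1 : ((s0 * n + 1 : ℕ) : ℝ) ≤ m := by
      push_cast
      refine le_trans ?_ hm
      have h2 : (s0 : ℝ) * n ≤ 3 * d * (25 * d ^ 2) :=
        mul_le_mul hs0' hn' (Nat.cast_nonneg _) (by positivity)
      have h3 : (1 : ℝ) ≤ d ^ 3 := one_le_pow₀ hd
      nlinarith
    exact_mod_cast h1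
  apply quant κ L I s0 n (by rw [hIM]; exact hs0) (by rw [hIM]; exact hn)
  refine le_trans ?_ hκ
  have hmono : ∀ a b : ℕ, a ≤ b → (Order.succ^[a] 𝔠 : Cardinal.{0}) ≤ Order.succ^[b] 𝔠 := by
    intro a b hab
    induction hab with
    | refl => exact le_refl _
    | step h ih =>
      refine ih.trans ?_
      rw [Function.iterate_succ_apply']
      exact Order.le_succ _
  exact hmono _ _ hsn

/-- the isomorphism of spaces of continuous functions induced by a homeomorphism -/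
noncomputable def congrC {X Y : Type} [TopologicalSpace X] [TopologicalSpace Y] (h : X ≃ₜ Y) :
    C(Y, ℝ) ≃L[ℝ] C(X, ℝ) where
  toFun := fun f => f.comp (h : C(X, Y))
  invFun := fun g => g.comp (h.symm : C(Y, X))
  map_add' := fun _ _ => rfl
  map_smul' := fun _ _ => rfl
  left_inv := fun f => by ext x; simp
  right_inv := fun f => by ext x; simp
  continuous_toFun := ContinuousMap.continuous_precomp _
  continuous_invFun := ContinuousMap.continuous_precomp _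

theorem norm_comp_le {X Y : Type} [TopologicalSpace X] [TopologicalSpace Y] [CompactSpace X]
    [CompactSpace Y] (h : X ≃ₜ Y) : ‖((congrC h : C(Y, ℝ) ≃L[ℝ] C(X, ℝ)) :
      C(Y, ℝ) →L[ℝ] C(X, ℝ))‖ ≤ 1 := by
  apply ContinuousLinearMap.opNorm_le_bound _ zero_le_one
  intro f
  rw [one_mul, ContinuousMap.norm_le _ (norm_nonneg _)]
  intro x
  exact ContinuousMap.norm_coe_le_norm f (h x)

/-- the final form for a space homeomorphic to `U κ` -/
theorem quant3 (κ X L : Type) [TopologicalSpace X] [TopologicalSpace L] [CompactSpace X]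
    [CompactSpace L] [T2Space L] [TotallyDisconnectedSpace L] (h : Nonempty (X ≃ₜ U κ))
    (d : ℝ) (hd : 1 ≤ d) (m : ℕ)
    (hm : 76 * d ^ 3 ≤ m) (hκ : Order.succ^[m] 𝔠 ≤ #κ) (Φ : C(X, ℝ) ≃L[ℝ] C(L, ℝ)) :
    d < ‖(Φ : C(X, ℝ) →L[ℝ] C(L, ℝ))‖ * ‖(Φ.symm : C(L, ℝ) →L[ℝ] C(X, ℝ))‖ := by
  haveI := cpt κ
  obtain ⟨h⟩ := h
  let T : C(L, ℝ) →L[ℝ] C(U κ, ℝ) :=
    ((congrC h.symm : C(X, ℝ) ≃L[ℝ] C(U κ, ℝ)) : C(X, ℝ) →L[ℝ] C(U κ, ℝ)).comp
      (Φ.symm : C(L, ℝ) →L[ℝ] C(X, ℝ))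
  let S : C(U κ, ℝ) →L[ℝ] C(L, ℝ) :=
    (Φ : C(X, ℝ) →L[ℝ] C(L, ℝ)).comp
      ((congrC h : C(U κ, ℝ) ≃L[ℝ] C(X, ℝ)) : C(U κ, ℝ) →L[ℝ] C(X, ℝ))
  have h1 := quant2 κ L d hd m hm hκ T S
    (fun f => by
      change congrC h.symm (Φ.symm (Φ (congrC h f))) = f
      rw [Φ.symm_apply_apply]
      ext x
      change f (h (h.symm x)) = f x
      rw [h.apply_symm_apply])
    (fun g => by
      change Φ (congrC h (congrC h.symm (Φ.symm g))) = g
      have e1 : congrC h (congrC h.symm (Φ.symm g)) = Φ.symm g := by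
        ext x
        change (Φ.symm g) (h.symm (h x)) = _
        rw [h.symm_apply_apply]
      rw [e1, Φ.apply_symm_apply])
  have h2 : ‖T‖ ≤ ‖(Φ.symm : C(L, ℝ) →L[ℝ] C(X, ℝ))‖ := by
    refine (ContinuousLinearMap.opNorm_comp_le _ _).trans ?_
    have := mul_le_mul_of_nonneg_right (norm_comp_le h.symm)
      (ContinuousLinearMap.opNorm_nonneg (Φ.symm : C(L, ℝ) →L[ℝ] C(X, ℝ)))
    rwa [one_mul] at this
  have h3 : ‖S‖ ≤ ‖(Φ : C(X, ℝ) →L[ℝ] C(L, ℝ))‖ := by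
    refine (ContinuousLinearMap.opNorm_comp_le _ _).trans ?_
    have := mul_le_mul_of_nonneg_left (norm_comp_le h)
      (ContinuousLinearMap.opNorm_nonneg (Φ : C(X, ℝ) →L[ℝ] C(L, ℝ)))
    rwa [mul_one] at this
  calc d < ‖T‖ * ‖S‖ := h1
    _ ≤ ‖(Φ.symm : C(L, ℝ) →L[ℝ] C(X, ℝ))‖ * ‖(Φ : C(X, ℝ) →L[ℝ] C(L, ℝ))‖ :=
        mul_le_mul h2 h3 S.opNorm_nonneg (ContinuousLinearMap.opNorm_nonneg _)
    _ = _ := mul_comm _ _

/-- no isomorphism for large `κ` -/
theorem no_iso' (κ X L : Type) [TopologicalSpace X] [TopologicalSpace L] [CompactSpace X]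
    [CompactSpace L] [T2Space L] [TotallyDisconnectedSpace L] (h : Nonempty (X ≃ₜ U κ))
    (hκ : ∀ m : ℕ, Order.succ^[m] 𝔠 ≤ #κ) : IsEmpty (C(X, ℝ) ≃L[ℝ] C(L, ℝ)) := by
  refine ⟨fun Φ => ?_⟩
  let d : ℝ := max 1 (‖(Φ : C(X, ℝ) →L[ℝ] C(L, ℝ))‖ * ‖(Φ.symm : C(L, ℝ) →L[ℝ] C(X, ℝ))‖)
  obtain ⟨m, hm⟩ := exists_nat_ge (76 * d ^ 3)
  have h1 := quant3 κ X L h d (le_max_left _ _) m hm (hκ m) Φ
  exact absurd h1 (not_lt.2 (le_max_right _ _))

theorem tot_disc (L : Type) [TopologicalSpace L] [T2Space L]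
    (h : IsTopologicalBasis {s : Set L | IsClopen s}) : TotallyDisconnectedSpace L := by
  have h1 : TotallySeparatedSpace L := by
    rw [totallySeparatedSpace_iff_exists_isClopen]
    intro x y hxy
    obtain ⟨V, hV, hxV, hVy⟩ := h.exists_subset_of_mem_open (mem_compl_singleton_iff.2 hxy)
      isOpen_compl_singleton
    exact ⟨V, hV, hxV, fun hy => hVy hy rfl⟩
  infer_instance

end Pool.Agent.W683.BH
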