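import Pool.Agent.W683.BH.Help

/-!
# MP_9e0ccb_an: task ST1
-/

set_option autoImplicit false

namespace Pool.Agent.W683.BH

open Set Filter Topology Cardinal TopologicalSpace MeasureTheory
open scoped Classical ENNReal

theorem limsup_nonempty {X : Type} [MeasurableSpace X] (μ : Measure X) [IsFiniteMeasure μ]
    (A : ℕ → Set X) (hA : ∀ n, MeasurableSet (A n)) (c : ℝ≥0∞) (hc : 0 < c)
    (h : ∀ n, c ≤ μ (A n)) : ∃ x, ∀ m, ∃ n ≥ m, x ∈ A n := by
  have h1 : Tendsto (μ ∘ fun m => ⋃ n ≥ m, A n) atTop (𝓝 (μ (⋂ m, ⋃ n ≥ m, A n))) := by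
    apply tendsto_measure_iInter_atTop
    · intro m
      exact (MeasurableSet.iUnion (fun n => MeasurableSet.iUnion (fun _ => hA n))).nullMeasurableSet
    · intro a b hab x hx
      simp only [mem_iUnion] at hx ⊢
      obtain ⟨n, hn, hx⟩ := hx
      exact ⟨n, le_trans hab hn, hx⟩
    · exact ⟨0, measure_ne_top _ _⟩
  have h2 : c ≤ μ (⋂ m, ⋃ n ≥ m, A n) := by
    apply ge_of_tendsto h1
    filter_upwards with m
    refine (h m).trans (measure_mono ?_)
    intro x hx
    simp only [mem_iUnion]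
    exact ⟨m, le_refl _, hx⟩
  have h3 : (⋂ m, ⋃ n ≥ m, A n).Nonempty := by
    rw [nonempty_iff_ne_empty]
    intro h0
    rw [h0, measure_empty] at h2
    exact absurd (lt_of_lt_of_le hc h2) (lt_irrefl _)
  obtain ⟨x, hx⟩ := h3
  refine ⟨x, fun m => ?_⟩
  have := mem_iInter.1 hx m
  simp only [mem_iUnion] at this
  obtain ⟨n, hn, hx⟩ := this
  exact ⟨n, hn, hx⟩

theorem cc_sq (k : ℕ) : cc k ^ 2 = (1 / 2) ^ (k + 1) := by
  unfold cc
  rw [Real.sq_sqrt (by positivity)]

theorem cc_pos (k : ℕ) : 0 < cc k := by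
  unfold cc
  exact Real.sqrt_pos.2 (by positivity)

theorem sum_cc_range (n : ℕ) : ∑ i ∈ Finset.range n, cc i ^ 2 = 1 - (1 / 2) ^ n := by
  induction n with
  | zero => simp
  | succ n ih => rw [Finset.sum_range_succ, ih, cc_sq]; ring

theorem sum_cc_le (B : Finset ℕ) : ∑ i ∈ B, cc i ^ 2 ≤ 1 := by
  have h1 : B ⊆ Finset.range (B.sup id + 1) := by
    intro i hi
    rw [Finset.mem_range]
    exact Nat.lt_succ_of_le (Finset.le_sup (f := id) hi)
  refine (Finset.sum_le_sum_of_subset_of_nonneg h1 (fun i _ _ => sq_nonneg _)).trans ?_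
  rw [sum_cc_range]
  have : (0 : ℝ) < (1 / 2) ^ (B.sup id + 1) := by positivity
  linarith

/-- the point with coordinates `cc i` at `γ i` -/
noncomputable def x1 {κ : Type} (γ : ℕ → κ) (hγ : Function.Injective γ) : U κ :=
  ⟨Function.extend γ cc 0, by
    intro A
    have h1 := Finset.sum_preimage γ A hγ.injOn (fun c => Function.extend γ cc 0 c ^ 2)
      (fun c _ hc => by
        have : Function.extend γ cc 0 c = 0 := Function.extend_apply' _ _ _ hc
        rw [this]; simp)
    rw [← h1]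
    simp only [hγ.extend_apply]
    exact sum_cc_le _⟩

theorem x1_apply {κ : Type} (γ : ℕ → κ) (hγ : Function.Injective γ) (i : ℕ) :
    (x1 γ hγ).1 (γ i) = cc i := hγ.extend_apply _ _ _

theorem x1_unique {κ : Type} (γ : ℕ → κ) (hγ : Function.Injective γ) (x : U κ)
    (hx : ∀ i, x.1 (γ i) = cc i) : x = x1 γ hγ := by
  apply Subtype.ext
  funext c
  by_cases hc : ∃ i, γ i = c
  · obtain ⟨i, rfl⟩ := hc
    rw [hx, x1_apply]
  · have h0 : (x1 γ hγ).1 c = 0 := Function.extend_apply' _ _ _ hc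
    rw [h0]
    have h1 : ∀ n : ℕ, x.1 c ^ 2 ≤ (1 / 2) ^ n := by
      intro n
      have h2 := x.2 (insert c ((Finset.range n).image γ))
      rw [Finset.sum_insert, Finset.sum_image (fun a _ b _ hab => hγ hab)] at h2
      · simp only [hx] at h2
        rw [sum_cc_range] at h2
        linarith
      · intro hm
        obtain ⟨i, -, hi⟩ := Finset.mem_image.1 hm
        exact hc ⟨i, hi⟩
    have h2 : x.1 c ^ 2 ≤ 0 := by
      have h3 : Tendsto (fun n : ℕ => ((1 : ℝ) / 2) ^ n) atTop (𝓝 0) :=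
        tendsto_pow_atTop_nhds_zero_of_lt_one (by norm_num) (by norm_num)
      exact ge_of_tendsto' h3 h1
    have h3 := le_antisymm h2 (sq_nonneg _)
    exact pow_eq_zero_iff (two_ne_zero) |>.1 h3

theorem hb_apply {κ : Type} (γ : ℕ → κ) (n : ℕ) (x : U κ) :
    hb γ n x = ∏ i ∈ Finset.range n, max 0 (1 - n * |x.1 (γ i) - cc i|) := rfl

theorem ph_apply {κ : Type} (k : ℕ) (γ : κ) (x : U κ) :
    ph k γ x = max 0 (min 1 (2 * |x.1 γ| / cc k - 1)) := rfl

theorem hb_nonneg {κ : Type} (γ : ℕ → κ) (n : ℕ) (x : U κ) : 0 ≤ hb γ n x := by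
  rw [hb_apply]
  exact Finset.prod_nonneg (fun i _ => le_max_left _ _)

theorem hb_le_one {κ : Type} (γ : ℕ → κ) (n : ℕ) (x : U κ) : hb γ n x ≤ 1 := by
  rw [hb_apply]
  apply Finset.prod_le_one (fun i _ => le_max_left _ _)
  intro i _
  apply max_le zero_le_one
  have : 0 ≤ (n : ℝ) * |x.1 (γ i) - cc i| := by positivity
  linarith

theorem hb_x1 {κ : Type} (γ : ℕ → κ) (hγ : Function.Injective γ) (n : ℕ) :
    hb γ n (x1 γ hγ) = 1 := by
  rw [hb_apply]
  apply Finset.prod_eq_one
  intro i _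
  rw [x1_apply]
  simp

theorem ph_nonneg {κ : Type} (k : ℕ) (γ : κ) (x : U κ) : 0 ≤ ph k γ x := le_max_left _ _

theorem ph_le_one {κ : Type} (k : ℕ) (γ : κ) (x : U κ) : ph k γ x ≤ 1 :=
  max_le zero_le_one (min_le_left _ _)

theorem ph_eq_one {κ : Type} (k : ℕ) (γ : κ) (x : U κ) (h : cc k ≤ |x.1 γ|) : ph k γ x = 1 := by
  rw [ph_apply]
  have h1 : 1 ≤ 2 * |x.1 γ| / cc k - 1 := by
    rw [le_sub_iff_add_le, le_div_iff₀ (cc_pos k)]
    linarith
  rw [min_eq_left h1, max_eq_right zero_le_one]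

theorem ph_ne_zero {κ : Type} (k : ℕ) (γ : κ) (x : U κ) (h : ph k γ x ≠ 0) :
    cc k / 2 < |x.1 γ| := by
  by_contra h0
  push Not at h0
  apply h
  rw [ph_apply]
  apply max_eq_left
  apply (min_le_right _ _).trans
  rw [sub_nonpos, div_le_one (cc_pos k)]
  linarith

/-- the neighbourhoods of `x1` -/
def Zn {κ : Type} (γ : ℕ → κ) (n : ℕ) : Set (U κ) :=
  {x | ∀ i < n, |x.1 (γ i) - cc i| < 1 / n}

theorem Zn_open {κ : Type} (γ : ℕ → κ) (n : ℕ) : IsOpen (Zn γ n) := by
  have h : Zn γ n = ⋂ i ∈ Finset.range n, {x : U κ | |x.1 (γ i) - cc i| < 1 / n} := by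
    ext x
    simp [Zn]
  rw [h]
  apply isOpen_biInter_finset
  intro i _
  have h1 : Continuous (fun x : U κ => |x.1 (γ i) - cc i|) :=
    (((continuous_apply (γ i)).comp continuous_subtype_val).sub continuous_const).abs
  exact isOpen_lt h1 continuous_const

theorem Zn_anti {κ : Type} (γ : ℕ → κ) : Antitone (Zn γ) := by
  intro n m hnm x hx i hi
  have hn : 0 < n := by omega
  refine lt_of_lt_of_le (hx i (lt_of_lt_of_le hi hnm)) ?_
  have h1 : (0 : ℝ) < n := by exact_mod_cast hn
  have h2 : (n : ℝ) ≤ m := by exact_mod_cast hnm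
  exact one_div_le_one_div_of_le h1 h2

theorem mem_Zn_of_hb {κ : Type} (γ : ℕ → κ) (n : ℕ) (x : U κ) (h : hb γ n x ≠ 0) :
    x ∈ Zn γ n := by
  intro i hi
  rw [hb_apply, Finset.prod_ne_zero_iff] at h
  have h1 := h i (Finset.mem_range.2 hi)
  have hn : (0 : ℝ) < n := by
    have : 0 < n := by omega
    exact_mod_cast this
  rw [lt_div_iff₀ hn]
  by_contra h2
  push Not at h2
  apply h1
  apply max_eq_left
  linarith

theorem Zn_inter {κ : Type} (γ : ℕ → κ) (hγ : Function.Injective γ) :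
    ⋂ n, (Zn γ n \ {x1 γ hγ}) = ∅ := by
  rw [Set.eq_empty_iff_forall_notMem]
  intro x hx
  rw [mem_iInter] at hx
  apply (hx 0).2
  rw [mem_singleton_iff]
  apply x1_unique
  intro i
  have h1 : ∀ n : ℕ, |x.1 (γ i) - cc i| ≤ 1 / ((n : ℝ) + 1) := by
    intro n
    have h2 := (hx (n + i + 1)).1 i (by omega)
    refine h2.le.trans ?_
    apply one_div_le_one_div_of_le (by positivity)
    push_cast
    have : (0 : ℝ) ≤ i := Nat.cast_nonneg i
    linarith
  have h2 : |x.1 (γ i) - cc i| ≤ 0 := ge_of_tendsto' tendsto_one_div_add_atTop_nhds_zero_nat h1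
  have h3 := abs_eq_zero.1 (le_antisymm h2 (abs_nonneg _))
  linarith

theorem st1 : T_ST1 := by
  intro hDOM κ L _ _ _ _ I γ hγ
  have hM := I.hM
  have hM0 : 0 < I.M := by linarith
  letI : MeasurableSpace (U κ) := borel (U κ)
  haveI : BorelSpace (U κ) := ⟨rfl⟩
  letI : MeasurableSpace L := borel L
  haveI : BorelSpace L := ⟨rfl⟩
  obtain ⟨ρ, hfin, hρ1, hρ⟩ := hDOM L (evT I.T (x1 γ hγ))
  have hρM : ρ.real univ ≤ I.M := by
    rw [Measure.real]
    apply ENNReal.toReal_le_of_le_ofReal hM0.le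
    exact hρ1.trans (ENNReal.ofReal_le_ofReal ((norm_evT_le _ _).trans I.hT))
  -- the sets A n
  have hSb : ∀ n y, |I.S (hb γ n) y| ≤ I.M := by
    intro n y
    rw [← Real.norm_eq_abs]
    refine (ContinuousMap.norm_coe_le_norm _ y).trans ((I.S.le_opNorm _).trans ?_)
    have h1 : ‖hb γ n‖ ≤ 1 := by
      rw [ContinuousMap.norm_le _ zero_le_one]
      intro x
      rw [Real.norm_eq_abs, abs_of_nonneg (hb_nonneg γ n x)]
      exact hb_le_one γ n x
    calc ‖I.S‖ * ‖hb γ n‖ ≤ I.M * 1 := mul_le_mul I.hS h1 (norm_nonneg _) hM0.le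
      _ = I.M := mul_one _
  let A : ℕ → Set L := fun n => {y | 1 / (2 * I.M) ≤ |I.S (hb γ n) y|}
  have hAm : ∀ n, MeasurableSet (A n) := by
    intro n
    exact (isClosed_le continuous_const (I.S (hb γ n)).continuous.abs).measurableSet
  have hAρ : ∀ n, ENNReal.ofReal (1 / (2 * I.M)) ≤ ρ (A n) := by
    intro n
    have h1 : 1 ≤ ∫ y, |I.S (hb γ n) y| ∂ρ := by
      have h2 := hρ (I.S (hb γ n))
      rw [evT_apply, I.TS, hb_x1, abs_one] at h2
      exact h2
    have h2 : ∫ y, |I.S (hb γ n) y| ∂ρ ≤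
        ∫ y, ((A n).indicator (fun _ => I.M) y + 1 / (2 * I.M)) ∂ρ := by
      apply integral_mono
      · apply Integrable.abs
        exact Integrable.of_bound (I.S (hb γ n)).continuous.measurable.aestronglyMeasurable I.M
          (Eventually.of_forall (fun y => by rw [Real.norm_eq_abs]; exact hSb n y))
      · apply Integrable.add
        · exact (integrable_const _).indicator (hAm n)
        · exact integrable_const _
      · intro y
        by_cases hy : y ∈ A n
        · simp only [indicator_of_mem hy]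
          have := hSb n y
          have h3 : 0 < 1 / (2 * I.M) := by positivity
          linarith
        · simp only [indicator_of_notMem hy]
          have h3 : |I.S (hb γ n) y| < 1 / (2 * I.M) := not_le.1 hy
          linarith
    rw [integral_add ((integrable_const _).indicator (hAm n)) (integrable_const _),
      integral_indicator (hAm n), integral_const, integral_const, smul_eq_mul, smul_eq_mul] at h2
    have h4 : (ρ.restrict (A n)).real univ = ρ.real (A n) := by
      rw [measureReal_restrict_apply MeasurableSet.univ, univ_inter]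
    rw [h4] at h2
    have h5 : ρ.real univ * (1 / (2 * I.M)) ≤ 1 / 2 := by
      rw [mul_one_div, div_le_div_iff₀ (by positivity) (by norm_num)]
      linarith
    have h6 : 1 / (2 * I.M) ≤ ρ.real (A n) := by
      rw [div_le_iff₀ (by positivity)]
      linarith
    exact ENNReal.ofReal_le_of_le_toReal h6
  obtain ⟨y, hy⟩ := limsup_nonempty ρ A hAm _ (ENNReal.ofReal_pos.2 (by positivity)) hAρ
  obtain ⟨ν, hνfin, -, hν⟩ := hDOM (U κ) (evT I.S y)
  have hZm : ∀ n, MeasurableSet (Zn γ n \ {x1 γ hγ}) := fun n =>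
    (Zn_open γ n).measurableSet.diff isClosed_singleton.measurableSet
  have hZ : Tendsto (ν ∘ fun n => Zn γ n \ {x1 γ hγ}) atTop (𝓝 0) := by
    have h1 := tendsto_measure_iInter_atTop (μ := ν) (s := fun n => Zn γ n \ {x1 γ hγ})
      (fun n => (hZm n).nullMeasurableSet)
      (fun a b hab => diff_subset_diff_left (Zn_anti γ hab)) ⟨0, measure_ne_top _ _⟩
    rwa [Zn_inter, measure_empty] at h1
  have hev : ∀ᶠ n in atTop, ν (Zn γ n \ {x1 γ hγ}) < ENNReal.ofReal (1 / (8 * I.M)) :=
    hZ.eventually_lt_const (ENNReal.ofReal_pos.2 (by positivity))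
  obtain ⟨m, hm⟩ := eventually_atTop.1 hev
  obtain ⟨n, hnm, hn⟩ := hy m
  refine ⟨n, y, fun k => ?_⟩
  have hnν : ν.real (Zn γ n \ {x1 γ hγ}) ≤ 1 / (8 * I.M) :=
    ENNReal.toReal_le_of_le_ofReal (by positivity) (hm n hnm).le
  have h1 := hν (hb γ n - hb γ n * ph k (γ k))
  rw [map_sub, evT_apply, evT_apply] at h1
  have h2 : ∫ x, |(hb γ n - hb γ n * ph k (γ k)) x| ∂ν ≤
      ∫ x, (Zn γ n \ {x1 γ hγ}).indicator (fun _ => (1 : ℝ)) x ∂ν := by
    have hle : ∀ x, |(hb γ n - hb γ n * ph k (γ k)) x| ≤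
        (Zn γ n \ {x1 γ hγ}).indicator (fun _ => (1 : ℝ)) x := by
      intro x
      have e1 : (hb γ n - hb γ n * ph k (γ k)) x = hb γ n x * (1 - ph k (γ k) x) := by
        simp only [ContinuousMap.sub_apply, ContinuousMap.mul_apply]
        ring
      rw [e1]
      by_cases hx : x ∈ Zn γ n \ {x1 γ hγ}
      · rw [indicator_of_mem hx, abs_of_nonneg (mul_nonneg (hb_nonneg _ _ _)
          (sub_nonneg.2 (ph_le_one _ _ _)))]
        have := hb_nonneg γ n x
        have := hb_le_one γ n x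
        have := ph_nonneg k (γ k) x
        have := ph_le_one k (γ k) x
        nlinarith
      · rw [indicator_of_notMem hx]
        have h0 : hb γ n x * (1 - ph k (γ k) x) = 0 := by
          by_cases hz : x ∈ Zn γ n
          · have hx1 : x = x1 γ hγ := by
              by_contra hne
              exact hx ⟨hz, hne⟩
            have hp : ph k (γ k) x = 1 := by
              apply ph_eq_one
              rw [hx1, x1_apply]
              exact le_abs_self _
            rw [hp]
            ring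
          · have : hb γ n x = 0 := by
              by_contra hne
              exact hz (mem_Zn_of_hb γ n x hne)
            rw [this, zero_mul]
        rw [h0, abs_zero]
    apply integral_mono_of_nonneg
    · exact Eventually.of_forall (fun x => abs_nonneg _)
    · exact (integrable_const _).indicator (hZm n)
    · exact Eventually.of_forall hle
  rw [integral_indicator (hZm n), integral_const, smul_eq_mul, mul_one,
    measureReal_restrict_apply MeasurableSet.univ, univ_inter] at h2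
  have h3 : |I.S (hb γ n) y - I.S (hb γ n * ph k (γ k)) y| ≤ 1 / (8 * I.M) :=
    h1.trans (h2.trans hnν)
  have h4 : 1 / (2 * I.M) ≤ |I.S (hb γ n) y| := hn
  have h5 := abs_sub_abs_le_abs_sub (I.S (hb γ n) y) (I.S (hb γ n * ph k (γ k)) y)
  have h6 : 1 / (2 * I.M) - 1 / (8 * I.M) = 3 / (8 * I.M) := by
    field_simp
    ring
  linarith

end Pool.Agent.W683.BH
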